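import Pool.Agent.H7RF.Elim
import Pool.Agent.RFG43.Core

/-!
Crew file for `MP_b76cd5_al`: the statement on nonvanishing in `r ≥ 2` variables, with the exponent
`r / (r + 1) + ε`.
-/

set_option autoImplicit false

namespace Pool.Agent.H7RF

open Finset Filter

/-- The statement for `r` variables. -/
def Stm (r : ℕ) : Prop := ∀ (ε : ℝ), 0 < ε → ∀ A : ℕ, ∃ n0 : ℕ,
    ∀ n : ℕ, n0 ≤ n → ∀ f : (Fin r → ℤ) →₀ ℤ, f ≠ 0 →
    (∀ x ∈ f.support, ∀ y ∈ f.support, ∀ j, |x j - y j| ≤ n) →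
    (∑ x ∈ f.support, |f x| ≤ (n : ℤ) ^ A) →
    ∃ p : ℕ, ∃ _ : Fact p.Prime, (p : ℝ) ≤ (n : ℝ) ^ ((r : ℝ) / (r + 1) + ε) ∧
      ∃ a : Fin r → (ZMod p)ˣ, RFG43.evg f a ≠ 0

theorem stm_two : Stm 2 := by
  intro ε hε A
  obtain ⟨n0, hn0⟩ := RFG43.exists_prime_ev ε hε A
  refine ⟨n0, fun n hn f hf hbox hl1 => ?_⟩
  obtain ⟨p, hp, hpn, a, ha⟩ := hn0 n hn f hf hbox hl1
  refine ⟨p, hp, ?_, a, ha⟩
  convert hpn using 2
  norm_num

theorem stm_succ (k : ℕ) (hk : 2 ≤ k) (ih : Stm k) : Stm (k + 1) := by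
  intro ε hε A
  have hkr : (2 : ℝ) ≤ k := by exact_mod_cast hk
  set η : ℝ := min (ε / 4) (1 / 4) with hη
  have hη0 : 0 < η := lt_min (by linarith) (by norm_num)
  have hηε : η ≤ ε / 4 := min_le_left _ _
  have hη1 : η ≤ 1 / 4 := min_le_right _ _
  obtain ⟨D0, hD0⟩ := elim_step k hk (η / 2) (by linarith)
  obtain ⟨n1, hn1⟩ := ih η hη0 A
  have T : ∀ c : ℝ, 0 < c → Tendsto (fun D : ℕ => (D : ℝ) ^ c) atTop atTop := fun c hc =>
    (tendsto_rpow_atTop hc).comp tendsto_natCast_atTop_atTop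
  obtain ⟨n2, hn2⟩ := eventually_atTop.1
    (((T (η / 2) (by linarith)).eventually_ge_atTop ((k : ℝ) + 2)).and (eventually_ge_atTop 1))
  refine ⟨max D0 (max n1 n2), fun n hn f hf hbox hl1 => ?_⟩
  have hnD : D0 ≤ n := (le_max_left _ _).trans hn
  have hnn1 : n1 ≤ n := ((le_max_left _ _).trans (le_max_right _ _)).trans hn
  obtain ⟨g1, g2⟩ := hn2 n (((le_max_right _ _).trans (le_max_right _ _)).trans hn)
  have hnr : (1 : ℝ) ≤ n := by exact_mod_cast g2
  have hnp : (0 : ℝ) < n := by linarith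
  obtain ⟨v, hv, hne⟩ := hD0 n hnD f hf hbox
  -- the new box
  set c : ℝ := 1 / (k * (k + 2)) with hc
  have hc0 : 0 < c := by positivity
  set L : ℝ := (n : ℝ) ^ (c + η / 2) with hL
  have hL1 : 1 ≤ L := Real.one_le_rpow hnr (by linarith)
  set N : ℕ := ⌈(k + 1 : ℝ) * L * n⌉₊ with hN
  have hNge : (k + 1 : ℝ) * L * n ≤ N := Nat.le_ceil _
  have hnN : (n : ℝ) ≤ N := by
    refine le_trans ?_ hNge
    have h1 : (1 : ℝ) ≤ (k + 1) * L := by nlinarith
    nlinarith
  have hNle : (N : ℝ) ≤ (n : ℝ) ^ (1 + c + η) := by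
    have h1 := (Nat.ceil_lt_add_one (show 0 ≤ (k + 1 : ℝ) * L * n by positivity)).le
    rw [← hN] at h1
    have h2 : (k + 1 : ℝ) * L * n + 1 ≤ (k + 2) * (L * n) := by
      have : 1 ≤ L * n := by nlinarith
      nlinarith
    calc (N : ℝ) ≤ (k + 2) * (L * n) := h1.trans h2
      _ ≤ (n : ℝ) ^ (η / 2) * (L * n) := mul_le_mul_of_nonneg_right g1 (by positivity)
      _ = _ := by
          have h3 : (n : ℝ) ^ (η / 2) * (L * n) =
              (n : ℝ) ^ (η / 2) * ((n : ℝ) ^ (c + η / 2) * (n : ℝ) ^ (1 : ℝ)) := by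
            rw [Real.rpow_one]
          rw [h3, ← Real.rpow_add hnp, ← Real.rpow_add hnp]
          congr 1
          ring
  obtain ⟨p, hp, hpN, a, ha⟩ := hn1 N (hnn1.trans (by exact_mod_cast hnN))
    (Finsupp.mapDomain (lin v) f) hne (by
      intro x' hx' y' hy' i
      classical
      have hx'' := Finsupp.mapDomain_support hx'
      have hy'' := Finsupp.mapDomain_support hy'
      rw [mem_image] at hx'' hy''
      obtain ⟨x, hx, rfl⟩ := hx''
      obtain ⟨y, hy, rfl⟩ := hy''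
      have e1 : lin v x i - lin v y i = ∑ j, v i j * (x j - y j) := by
        rw [lin_apply, lin_apply, ← sum_sub_distrib]
        exact sum_congr rfl fun j _ => by ring
      have e2 : ((|lin v x i - lin v y i| : ℤ) : ℝ) ≤ (k + 1 : ℝ) * L * n := by
        rw [e1]
        calc ((|∑ j, v i j * (x j - y j)| : ℤ) : ℝ)
            ≤ ((∑ j, |v i j * (x j - y j)| : ℤ) : ℝ) := by
              exact_mod_cast abs_sum_le_sum_abs _ _
          _ = ∑ j, ((|v i j| : ℤ) : ℝ) * ((|x j - y j| : ℤ) : ℝ) := by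
              push_cast
              exact sum_congr rfl fun j _ => abs_mul _ _
          _ ≤ ∑ _j : Fin (k + 1), L * n := by
              refine sum_le_sum fun j _ => ?_
              apply mul_le_mul (hv i j) _ (by positivity) (by positivity)
              exact_mod_cast hbox x hx y hy j
          _ = _ := by
              rw [sum_const, card_univ, Fintype.card_fin, nsmul_eq_mul]
              push_cast
              ring
      have e3 := e2.trans hNge
      exact_mod_cast e3) (by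
      refine (RFG43.l1_mapDomain _ _).trans (hl1.trans ?_)
      have : (n : ℤ) ≤ N := by exact_mod_cast hnN
      exact pow_le_pow_left₀ (by positivity) this A)
  refine ⟨p, hp, ?_, fun j => ∏ i, a i ^ v i j, by rw [← evg_lin]; exact ha⟩
  have hN0 : (0 : ℝ) < N := lt_of_lt_of_le hnp hnN
  calc (p : ℝ) ≤ (N : ℝ) ^ ((k : ℝ) / (k + 1) + η) := hpN
    _ ≤ ((n : ℝ) ^ (1 + c + η)) ^ ((k : ℝ) / (k + 1) + η) :=
        Real.rpow_le_rpow hN0.le hNle (by positivity)
    _ = (n : ℝ) ^ ((1 + c + η) * ((k : ℝ) / (k + 1) + η)) := by rw [← Real.rpow_mul hnp.le]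
    _ ≤ _ := by
        apply Real.rpow_le_rpow_of_exponent_le hnr
        push_cast
        have e1 : (1 + c) * ((k : ℝ) / (k + 1)) = (k + 1) / (k + 1 + 1) := by
          rw [hc]
          field_simp
          ring
        have e2 : (k : ℝ) / (k + 1) ≤ 1 := by
          rw [div_le_one (by positivity)]
          linarith
        have e3 : c ≤ 1 := by
          rw [hc, div_le_one (by positivity)]
          nlinarith
        have e4 : η * ((k : ℝ) / (k + 1)) ≤ η * 1 := mul_le_mul_of_nonneg_left e2 hη0.le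
        have e5 : c * η ≤ 1 * η := mul_le_mul_of_nonneg_right e3 hη0.le
        have e6 : η * η ≤ η * 1 := mul_le_mul_of_nonneg_left (by linarith) hη0.le
        calc (1 + c + η) * ((k : ℝ) / (k + 1) + η) =
              (1 + c) * ((k : ℝ) / (k + 1)) + η * ((k : ℝ) / (k + 1)) + η + c * η + η * η := by
              ring
          _ ≤ (k + 1) / (k + 1 + 1) + η + η + η + η := by
              rw [e1]
              linarith
          _ ≤ _ := by linarith

theorem stm (r : ℕ) (hr : 2 ≤ r) : Stm r := by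
  induction r, hr using Nat.le_induction with
  | base => exact stm_two
  | succ k hk ih => exact stm_succ k hk ih

/-- E. The exact exponent. -/
theorem exists_prime_exact (r : ℕ) (hr : 2 ≤ r) (ε : ℝ) (hε : 0 < ε) (A : ℕ) : ∃ n0 : ℕ,
    ∀ n : ℕ, n0 ≤ n → ∀ (α : Type) [Fintype α], Fintype.card α = r → ∀ f : (α → ℤ) →₀ ℤ, f ≠ 0 →
    (∀ x ∈ f.support, ∀ y ∈ f.support, ∀ j, |x j - y j| ≤ n) →
    (∑ x ∈ f.support, |f x| ≤ (n : ℤ) ^ A) →
    ∃ p : ℕ, ∃ _ : Fact p.Prime, (p : ℝ) ≤ (n : ℝ) ^ ((r : ℝ) / (r + 1) + ε) ∧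
      ∃ a : α → (ZMod p)ˣ, RFG43.evg f a ≠ 0 := by
  classical
  obtain ⟨n0, hn0⟩ := stm r hr ε hε A
  refine ⟨n0, fun n hn α _ hα f hf hbox hl1 => ?_⟩
  obtain ⟨e⟩ : Nonempty (α ≃ Fin r) := ⟨Fintype.equivFinOfCardEq hα⟩
  set g : (α → ℤ) → (Fin r → ℤ) := fun x => x ∘ e.symm with hg
  have hinj : Function.Injective g := by
    intro x y h
    funext i
    have := congrFun h (e i)
    simpa [hg] using this
  have c1 : Finsupp.mapDomain g f ≠ 0 := by
    intro h
    exact hf (Finsupp.mapDomain_injective hinj (h.trans (Finsupp.mapDomain_zero).symm))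
  have c2 : ∀ x ∈ (Finsupp.mapDomain g f).support, ∀ y ∈ (Finsupp.mapDomain g f).support,
      ∀ j, |x j - y j| ≤ (n : ℤ) := by
    intro x' hx' y' hy' j
    have hx'' := Finsupp.mapDomain_support hx'
    have hy'' := Finsupp.mapDomain_support hy'
    rw [mem_image] at hx'' hy''
    obtain ⟨x, hx, rfl⟩ := hx''
    obtain ⟨y, hy, rfl⟩ := hy''
    exact hbox x hx y hy (e.symm j)
  obtain ⟨p, hp, hpn, a, ha⟩ := hn0 n hn (Finsupp.mapDomain g f) c1 c2
    ((RFG43.l1_mapDomain g f).trans hl1)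
  refine ⟨p, hp, hpn, a ∘ e, ?_⟩
  rw [RFG43.evg, Finsupp.sum_mapDomain_index (by simp) (by intros; push_cast; ring)] at ha
  convert ha using 1
  rw [RFG43.evg]
  refine Finsupp.sum_congr fun x _ => ?_
  congr 2
  rw [← Equiv.prod_comp e]
  refine prod_congr rfl fun i _ => ?_
  simp [hg]

end Pool.Agent.H7RF
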