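import Mathlib.NumberTheory.Harmonic.Bounds
import Mathlib.Data.Nat.Count
import Mathlib.Tactic

/-!
# Few vectors of the box are orthogonal to a small nonzero vector
-/

set_option autoImplicit false

namespace Pool.Agent.H7RF

open Finset

private theorem B5_harm (n : ℕ) : ∑ b ∈ Icc 1 n, ((b : ℝ))⁻¹ ≤ 1 + Real.log n := by
  have h := harmonic_le_one_add_log n
  rw [harmonic_eq_sum_Icc] at h
  push_cast at h
  exact h

private theorem B5_gcd_sum (ρ : ℕ) :
    ∑ a ∈ Icc 1 ρ, ∑ b ∈ Icc 1 ρ, ((Nat.gcd a b : ℝ) / b) ≤ ρ * (1 + Real.log ρ) ^ 2 := by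
  have h0 : 0 ≤ ∑ b ∈ Icc 1 ρ, ((b : ℝ))⁻¹ := sum_nonneg fun _ _ => by positivity
  calc ∑ a ∈ Icc 1 ρ, ∑ b ∈ Icc 1 ρ, ((Nat.gcd a b : ℝ) / b)
      ≤ ∑ a ∈ Icc 1 ρ, ∑ b ∈ Icc 1 ρ, ∑ g ∈ Icc 1 ρ,
          (if g ∣ a then (1 : ℝ) else 0) * (if g ∣ b then (g : ℝ) / b else 0) := by
        refine sum_le_sum fun a ha => sum_le_sum fun b hb => ?_
        have ha1 := (mem_Icc.mp ha)
        have hg : Nat.gcd a b ∈ Icc 1 ρ := mem_Icc.mpr
          ⟨Nat.gcd_pos_of_pos_left _ ha1.1, le_trans (Nat.gcd_le_left _ ha1.1) ha1.2⟩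
        have h1 : ((Nat.gcd a b : ℝ) / b) = (if Nat.gcd a b ∣ a then (1 : ℝ) else 0) *
            (if Nat.gcd a b ∣ b then ((Nat.gcd a b : ℕ) : ℝ) / b else 0) := by
          rw [if_pos (Nat.gcd_dvd_left a b), if_pos (Nat.gcd_dvd_right a b), one_mul]
        rw [h1]
        refine single_le_sum (f := fun g : ℕ => (if g ∣ a then (1 : ℝ) else 0) *
            (if g ∣ b then (g : ℝ) / b else 0)) (fun g _ => ?_) hg
        split_ifs <;> positivity
    _ = ∑ g ∈ Icc 1 ρ, (∑ a ∈ Icc 1 ρ, (if g ∣ a then (1 : ℝ) else 0)) *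
          ∑ b ∈ Icc 1 ρ, (if g ∣ b then (g : ℝ) / b else 0) := by
        have h1 : ∀ a ∈ Icc 1 ρ, ∑ b ∈ Icc 1 ρ, ∑ g ∈ Icc 1 ρ,
            (if g ∣ a then (1 : ℝ) else 0) * (if g ∣ b then (g : ℝ) / b else 0) =
            ∑ g ∈ Icc 1 ρ, (if g ∣ a then (1 : ℝ) else 0) *
              ∑ b ∈ Icc 1 ρ, (if g ∣ b then (g : ℝ) / b else 0) := by
          intro a _
          rw [sum_comm]
          exact sum_congr rfl fun g _ => (mul_sum _ _ _).symm
        rw [sum_congr rfl h1, sum_comm]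
        exact sum_congr rfl fun g _ => (sum_mul _ _ _).symm
    _ ≤ ∑ g ∈ Icc 1 ρ, ((ρ : ℝ) * (g : ℝ)⁻¹) * ∑ b ∈ Icc 1 ρ, ((b : ℝ))⁻¹ := by
        refine sum_le_sum fun g hg => ?_
        have hg1 := (mem_Icc.mp hg)
        have hgp : (0 : ℝ) < g := by exact_mod_cast hg1.1
        refine mul_le_mul ?_ ?_ (sum_nonneg fun b _ => by split_ifs <;> positivity) (by positivity)
        · rw [← sum_filter, sum_const, nsmul_eq_mul, mul_one]
          have h1 : ((Icc 1 ρ).filter fun a => g ∣ a).card = ρ / g := by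
            have := Nat.Ioc_filter_dvd_card_eq_div ρ g
            rwa [show Ioc 0 ρ = Icc 1 ρ from rfl] at this
          rw [h1, ← div_eq_mul_inv]
          exact Nat.cast_div_le
        · rw [← sum_filter]
          have hinj : Set.InjOn (fun b : ℕ => b / g) ((Icc 1 ρ).filter fun b => g ∣ b) := by
            intro b hb c hc hbc
            obtain ⟨b', rfl⟩ := (mem_filter.mp (mem_coe.mp hb)).2
            obtain ⟨c', rfl⟩ := (mem_filter.mp (mem_coe.mp hc)).2
            simp only [Nat.mul_div_cancel_left _ hg1.1] at hbc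
            rw [hbc]
          have h2 : ∑ b ∈ (Icc 1 ρ).filter (fun b => g ∣ b), (g : ℝ) / b =
              ∑ b ∈ ((Icc 1 ρ).filter fun b => g ∣ b).image (fun b : ℕ => b / g), ((b : ℝ))⁻¹ := by
            rw [sum_image hinj]
            refine sum_congr rfl fun b hb => ?_
            obtain ⟨hb1, b', rfl⟩ := mem_filter.mp hb
            rw [Nat.mul_div_cancel_left _ hg1.1]
            push_cast
            rw [div_mul_eq_div_div, div_self hgp.ne', one_div]
          rw [h2]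
          refine sum_le_sum_of_subset_of_nonneg ?_ fun _ _ _ => by positivity
          intro c hc
          obtain ⟨b, hb, rfl⟩ := mem_image.mp hc
          obtain ⟨hb1, b', rfl⟩ := mem_filter.mp hb
          rw [Nat.mul_div_cancel_left _ hg1.1]
          have hb2 := mem_Icc.mp hb1
          refine mem_Icc.mpr ⟨?_, ?_⟩
          · rcases Nat.eq_zero_or_pos b' with h | h
            · rw [h] at hb2
              simp at hb2
            · exact h
          · calc b' ≤ g * b' := Nat.le_mul_of_pos_left _ hg1.1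
              _ ≤ ρ := hb2.2
    _ = ρ * (∑ b ∈ Icc 1 ρ, ((b : ℝ))⁻¹) ^ 2 := by
        rw [← sum_mul, ← mul_sum]
        ring
    _ ≤ ρ * (1 + Real.log ρ) ^ 2 := by
        have h1 := B5_harm ρ
        gcongr

private theorem B5_residue (H m : ℕ) (hm : 1 ≤ m) (hmH : m ≤ H) (T : Finset ℤ)
    (hT : T ⊆ Icc 1 (H : ℤ)) (hc : ∀ x ∈ T, ∀ y ∈ T, (m : ℤ) ∣ x - y) :
    (T.card : ℝ) ≤ 2 * H / m := by
  have hm0 : (0 : ℤ) < m := by exact_mod_cast hm
  have h1 : T.card ≤ (range (H / m + 1)).card := by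
    refine card_le_card_of_injOn (fun x : ℤ => (x / m).toNat) ?_ ?_
    · intro x hx
      have hx1 := mem_Icc.mp (hT hx)
      have h2 : x / m ≤ ((H / m : ℕ) : ℤ) := by
        push_cast
        exact Int.ediv_le_ediv hm0 hx1.2
      have h3 : 0 ≤ ((H / m : ℕ) : ℤ) := Int.natCast_nonneg _
      simp only [coe_range, Set.mem_Iio]
      omega
    · intro x hx y hy hxy
      have hx1 := mem_Icc.mp (hT hx)
      have hy1 := mem_Icc.mp (hT hy)
      have h2 : 0 ≤ x / m := Int.ediv_nonneg (by omega) hm0.le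
      have h3 : 0 ≤ y / m := Int.ediv_nonneg (by omega) hm0.le
      have h4 : x / m = y / m := by
        have : (x / m).toNat = (y / m).toNat := hxy
        omega
      have h5 : x % m = y % m := Int.ModEq.symm (Int.modEq_iff_dvd.mpr (hc x hx y hy))
      rw [← Int.mul_ediv_add_emod x m, ← Int.mul_ediv_add_emod y m, h4, h5]
  rw [card_range] at h1
  have hmR : (0 : ℝ) < m := by exact_mod_cast hm
  have h2 : ((H / m : ℕ) : ℝ) ≤ H / m := Nat.cast_div_le
  have h3 : (1 : ℝ) ≤ H / m := by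
    rw [le_div_iff₀ hmR, one_mul]
    exact_mod_cast hmH
  have h4 : (T.card : ℝ) ≤ ((H / m : ℕ) : ℝ) + 1 := by exact_mod_cast h1
  calc (T.card : ℝ) ≤ (H : ℝ) / m + H / m := by linarith
    _ = 2 * H / m := by ring

private theorem B5_card_box (k : ℕ) (i j : Fin (k + 1)) (hij : i ≠ j) (c : ℤ) (A : Finset ℤ) :
    (Fintype.piFinset fun l : Fin (k + 1) => if l = i ∨ l = j then {c} else A).card =
      A.card ^ (k - 1) := by
  rw [Fintype.card_piFinset]
  have h1 : ∀ l : Fin (k + 1), (if l = i ∨ l = j then ({c} : Finset ℤ) else A).card =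
      if l = i ∨ l = j then 1 else A.card := by
    intro l
    split_ifs <;> simp
  rw [prod_congr rfl fun l _ => h1 l, prod_ite, prod_const_one, one_mul, prod_const]
  congr 1
  have h2 : (univ.filter fun l : Fin (k + 1) => ¬ (l = i ∨ l = j)) = univ \ {i, j} := by
    ext l
    simp
  rw [h2, card_sdiff_of_subset (subset_univ _), card_pair hij, card_univ, Fintype.card_fin]
  omega

open Classical in
private theorem B5_sol (k : ℕ) (H : ℕ) (i j : Fin (k + 1)) (hij : i ≠ j)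
    (v : Fin (k + 1) → ℤ) (a b : ℕ) (ha : 1 ≤ a) (hb : 1 ≤ b) (hbH : b ≤ H)
    (hvi : (v i).natAbs = a) (hvj : (v j).natAbs = b) :
    (((Fintype.piFinset fun _ : Fin (k + 1) => Icc (1 : ℤ) H).filter
      fun e => ∑ l, v l * e l = 0).card : ℝ) ≤ 2 * (H : ℝ) ^ k * ((Nat.gcd a b : ℝ) / b) := by
  have hk : 1 ≤ k := by
    rcases Nat.eq_zero_or_pos k with h | h
    · have h1 := i.2
      have h2 := j.2
      exact absurd (Fin.ext (by omega)) hij
    · exact h
  set S := (Fintype.piFinset fun _ : Fin (k + 1) => Icc (1 : ℤ) H).filter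
      fun e => ∑ l, v l * e l = 0 with hS
  set F : (Fin (k + 1) → ℤ) → (Fin (k + 1) → ℤ) := fun e l => if l = i ∨ l = j then 1 else e l
    with hF
  set g := Nat.gcd a b with hg
  have hgpos : 0 < g := Nat.gcd_pos_of_pos_left _ ha
  obtain ⟨a', ha'⟩ : g ∣ a := Nat.gcd_dvd_left a b
  obtain ⟨m, hm'⟩ : g ∣ b := Nat.gcd_dvd_right a b
  have hm : 1 ≤ m := by
    rcases Nat.eq_zero_or_pos m with h | h
    · rw [h, mul_zero] at hm'
      omega
    · exact h
  have hmH : m ≤ H := by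
    calc m ≤ g * m := Nat.le_mul_of_pos_left _ hgpos
      _ = b := hm'.symm
      _ ≤ H := hbH
  have hcop : Nat.Coprime m a' := by
    have h1 : g * Nat.gcd a' m = g := by
      rw [← Nat.gcd_mul_left, ← ha', ← hm']
    have h2 : Nat.gcd a' m = 1 := by
      have : g * Nat.gcd a' m = g * 1 := by rw [h1, mul_one]
      exact Nat.eq_of_mul_eq_mul_left hgpos this
    exact Nat.Coprime.symm h2
  -- two solutions with the same image
  have hrel : ∀ e ∈ S, ∀ e' ∈ S, F e = F e' → v i * (e i - e' i) + v j * (e j - e' j) = 0 := by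
    intro e he e' he' hFe
    have h1 := (mem_filter.mp he).2
    have h2 := (mem_filter.mp he').2
    have h3 : ∑ l, v l * (e l - e' l) = 0 := by
      simp only [mul_sub, sum_sub_distrib, h1, h2, sub_zero]
    have h4 : ∑ l, v l * (e l - e' l) = ∑ l ∈ {i, j}, v l * (e l - e' l) := by
      refine (sum_subset (subset_univ _) fun l _ hl => ?_).symm
      have hl' : ¬ (l = i ∨ l = j) := by simpa using hl
      have h5 := congrFun hFe l
      simp only [hF, if_neg hl'] at h5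
      rw [h5, sub_self, mul_zero]
    rw [h4, sum_pair hij] at h3
    exact h3
  have hcard : (S.card : ℝ) = ∑ u ∈ S.image F, ((S.filter fun e => F e = u).card : ℝ) := by
    rw [card_eq_sum_card_image F S]
    push_cast
    rfl
  have hfib : ∀ u ∈ S.image F, ((S.filter fun e => F e = u).card : ℝ) ≤ 2 * H / m := by
    intro u _
    set Q := S.filter fun e => F e = u with hQ
    have hinj : Set.InjOn (fun e : Fin (k + 1) → ℤ => e i) Q := by
      intro e he e' he' hee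
      have h1 := mem_filter.mp (mem_coe.mp he)
      have h2 := mem_filter.mp (mem_coe.mp he')
      have hFe : F e = F e' := h1.2.trans h2.2.symm
      have h3 := hrel e h1.1 e' h2.1 hFe
      have hee' : e i = e' i := hee
      rw [hee', sub_self, mul_zero, zero_add] at h3
      have hvj0 : v j ≠ 0 := by
        intro h
        rw [h] at hvj
        simp at hvj
        omega
      have h4 : e j = e' j := by
        have := (mul_eq_zero.mp h3).resolve_left hvj0
        linarith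
      funext l
      by_cases hl : l = i ∨ l = j
      · rcases hl with rfl | rfl
        · exact hee'
        · exact h4
      · have h5 := congrFun hFe l
        simp only [hF, if_neg hl] at h5
        exact h5
    rw [← card_image_of_injOn hinj]
    refine B5_residue H m hm hmH _ ?_ ?_
    · intro x hx
      obtain ⟨e, he, rfl⟩ := mem_image.mp hx
      have h1 := (mem_filter.mp (mem_filter.mp he).1).1
      exact Fintype.mem_piFinset.mp h1 i
    · intro x hx y hy
      obtain ⟨e, he, rfl⟩ := mem_image.mp hx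
      obtain ⟨e', he', rfl⟩ := mem_image.mp hy
      have h1 := mem_filter.mp he
      have h2 := mem_filter.mp he'
      have h3 := hrel e h1.1 e' h2.1 (h1.2.trans h2.2.symm)
      have h4 : (v j) ∣ v i * (e i - e' i) := ⟨-(e j - e' j), by linarith⟩
      have h5 : b ∣ a * (e i - e' i).natAbs := by
        have := Int.natAbs_dvd_natAbs.mpr h4
        rwa [Int.natAbs_mul, hvi, hvj] at this
      rw [hm', ha', mul_assoc] at h5
      have h6 : m ∣ a' * (e i - e' i).natAbs := Nat.dvd_of_mul_dvd_mul_left hgpos h5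
      have h7 : m ∣ (e i - e' i).natAbs := Nat.Coprime.dvd_of_dvd_mul_left hcop h6
      exact Int.natCast_dvd.mpr h7
  have himg : ((S.image F).card : ℝ) ≤ (H : ℝ) ^ (k - 1) := by
    have h1 : S.image F ⊆ Fintype.piFinset fun l : Fin (k + 1) =>
        if l = i ∨ l = j then {(1 : ℤ)} else Icc 1 (H : ℤ) := by
      intro u hu
      obtain ⟨e, he, rfl⟩ := mem_image.mp hu
      have h2 := (mem_filter.mp he).1
      refine Fintype.mem_piFinset.mpr fun l => ?_
      simp only [hF]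
      split_ifs with hl
      · exact mem_singleton_self _
      · exact Fintype.mem_piFinset.mp h2 l
    have h2 := card_le_card h1
    rw [B5_card_box k i j hij] at h2
    simp only [Int.card_Icc, add_sub_cancel_right, Int.toNat_natCast] at h2
    exact_mod_cast h2
  have hgR : (0 : ℝ) < g := by exact_mod_cast hgpos
  have hmR : (0 : ℝ) < m := by exact_mod_cast hm
  have hfrac : (g : ℝ) / b = 1 / m := by
    rw [hm']
    push_cast
    field_simp
  calc (S.card : ℝ) = ∑ u ∈ S.image F, ((S.filter fun e => F e = u).card : ℝ) := hcard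
    _ ≤ ∑ _u ∈ S.image F, (2 * (H : ℝ) / m) := sum_le_sum hfib
    _ = ((S.image F).card : ℝ) * (2 * (H : ℝ) / m) := by rw [sum_const, nsmul_eq_mul]
    _ ≤ (H : ℝ) ^ (k - 1) * (2 * (H : ℝ) / m) := by gcongr
    _ = 2 * (H : ℝ) ^ k * ((g : ℝ) / b) := by
        rw [hfrac]
        obtain ⟨k', rfl⟩ : ∃ k', k = k' + 1 := ⟨k - 1, by omega⟩
        rw [Nat.add_sub_cancel, pow_succ]
        ring

/-- the vector with the two given coordinates -/
private def B5_vec {k : ℕ} (i j : Fin (k + 1)) (x y : ℤ) (w : Fin (k + 1) → ℤ) :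
    Fin (k + 1) → ℤ := fun l => if l = i then x else if l = j then y else w l

open Classical in
private theorem B5_pair (k : ℕ) (H ρ : ℕ) (hρH : ρ ≤ H) (i j : Fin (k + 1)) (hij : i ≠ j) :
    (((Fintype.piFinset fun _ : Fin (k + 1) => Icc (1 : ℤ) H).filter
      fun e => ∃ v : Fin (k + 1) → ℤ, v i ≠ 0 ∧ v j ≠ 0 ∧ (∀ l, |v l| ≤ ρ) ∧
        ∑ l, v l * e l = 0).card : ℝ) ≤
      8 * (2 * ρ + 1) ^ (k - 1) * ρ * (1 + Real.log ρ) ^ 2 * (H : ℝ) ^ k := by
  set W : Finset (Fin (k + 1) → ℤ) := Fintype.piFinset fun l : Fin (k + 1) =>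
    if l = i ∨ l = j then {(0 : ℤ)} else Icc (-(ρ : ℤ)) ρ with hW
  set P : Finset ((ℤ × ℤ) × ((ℕ × ℕ) × (Fin (k + 1) → ℤ))) :=
    (({1, -1} : Finset ℤ) ×ˢ ({1, -1} : Finset ℤ)) ×ˢ ((Icc 1 ρ ×ˢ Icc 1 ρ) ×ˢ W) with hP
  have hWc : (W.card : ℝ) = (2 * ρ + 1) ^ (k - 1) := by
    rw [hW, B5_card_box k i j hij, Int.card_Icc]
    have : ((ρ : ℤ) + 1 - -(ρ : ℤ)).toNat = 2 * ρ + 1 := by omega
    rw [this]
    push_cast
    ring
  have hsub : ((Fintype.piFinset fun _ : Fin (k + 1) => Icc (1 : ℤ) H).filter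
      fun e => ∃ v : Fin (k + 1) → ℤ, v i ≠ 0 ∧ v j ≠ 0 ∧ (∀ l, |v l| ≤ ρ) ∧
        ∑ l, v l * e l = 0) ⊆ P.biUnion fun p =>
      (Fintype.piFinset fun _ : Fin (k + 1) => Icc (1 : ℤ) H).filter
        fun e => ∑ l, B5_vec i j (p.1.1 * p.2.1.1) (p.1.2 * p.2.1.2) p.2.2 l * e l = 0 := by
    intro e he
    obtain ⟨heb, v, hvi, hvj, hv, hsum⟩ := mem_filter.mp he
    have hsign : ∀ x : ℤ, x ≠ 0 → |x| ≤ ρ → ∃ s ∈ ({1, -1} : Finset ℤ), ∃ a ∈ Icc 1 ρ,
        s * ((a : ℕ) : ℤ) = x := by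
      intro x hx hxρ
      refine ⟨x.sign, ?_, x.natAbs, ?_, Int.sign_mul_natAbs x⟩
      · rcases lt_or_gt_of_ne hx with h | h
        · rw [Int.sign_eq_neg_one_of_neg h]
          simp
        · rw [Int.sign_eq_one_of_pos h]
          simp
      · refine mem_Icc.mpr ⟨Int.natAbs_pos.mpr hx, ?_⟩
        have h1 : ((x.natAbs : ℕ) : ℤ) = |x| := Int.natCast_natAbs x
        omega
    obtain ⟨s, hs, a, ha, hsa⟩ := hsign (v i) hvi (hv i)
    obtain ⟨t, ht, b, hb, htb⟩ := hsign (v j) hvj (hv j)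
    refine mem_biUnion.mpr ⟨((s, t), ((a, b), fun l => if l = i ∨ l = j then 0 else v l)), ?_, ?_⟩
    · refine mem_product.mpr ⟨mem_product.mpr ⟨hs, ht⟩, mem_product.mpr
        ⟨mem_product.mpr ⟨ha, hb⟩, ?_⟩⟩
      refine Fintype.mem_piFinset.mpr fun l => ?_
      by_cases hl : l = i ∨ l = j
      · simp only [if_pos hl]
        exact mem_singleton_self _
      · simp only [if_neg hl]
        exact mem_Icc.mpr (abs_le.mp (hv l))
    · refine mem_filter.mpr ⟨heb, ?_⟩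
      rw [← hsum]
      refine sum_congr rfl fun l _ => ?_
      congr 1
      simp only [B5_vec]
      by_cases h1 : l = i
      · rw [if_pos h1, hsa, h1]
      · rw [if_neg h1]
        by_cases h2 : l = j
        · rw [if_pos h2, htb, h2]
        · rw [if_neg h2, if_neg (by tauto)]
  have hterm : ∀ p ∈ P, (((Fintype.piFinset fun _ : Fin (k + 1) => Icc (1 : ℤ) H).filter
        fun e => ∑ l, B5_vec i j (p.1.1 * p.2.1.1) (p.1.2 * p.2.1.2) p.2.2 l * e l = 0).card : ℝ) ≤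
      2 * (H : ℝ) ^ k * ((Nat.gcd p.2.1.1 p.2.1.2 : ℝ) / p.2.1.2) := by
    intro p hp
    obtain ⟨h1, h2⟩ := mem_product.mp hp
    obtain ⟨h3, h4⟩ := mem_product.mp h1
    obtain ⟨h5, h6⟩ := mem_product.mp h2
    obtain ⟨h7, h8⟩ := mem_product.mp h5
    have hab : ∀ s : ℤ, s ∈ ({1, -1} : Finset ℤ) → ∀ a : ℕ, (s * (a : ℤ)).natAbs = a := by
      intro s hs a
      rw [Int.natAbs_mul, Int.natAbs_natCast]
      rcases mem_insert.mp hs with h | h
      · rw [h]; simp
      · rw [mem_singleton.mp h]; simp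
    refine B5_sol k H i j hij _ _ _ (mem_Icc.mp h7).1 (mem_Icc.mp h8).1
      (le_trans (mem_Icc.mp h8).2 hρH) ?_ ?_
    · simp only [B5_vec, if_true]
      exact hab _ h3 _
    · simp only [B5_vec, if_true, if_neg hij.symm]
      exact hab _ h4 _
  calc (((Fintype.piFinset fun _ : Fin (k + 1) => Icc (1 : ℤ) H).filter
      fun e => ∃ v : Fin (k + 1) → ℤ, v i ≠ 0 ∧ v j ≠ 0 ∧ (∀ l, |v l| ≤ ρ) ∧
        ∑ l, v l * e l = 0).card : ℝ)
      ≤ ((P.biUnion fun p =>
      (Fintype.piFinset fun _ : Fin (k + 1) => Icc (1 : ℤ) H).filter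
        fun e => ∑ l, B5_vec i j (p.1.1 * p.2.1.1) (p.1.2 * p.2.1.2) p.2.2 l * e l = 0).card :
          ℝ) := by
        exact_mod_cast card_le_card hsub
    _ ≤ ∑ p ∈ P, (((Fintype.piFinset fun _ : Fin (k + 1) => Icc (1 : ℤ) H).filter
        fun e => ∑ l, B5_vec i j (p.1.1 * p.2.1.1) (p.1.2 * p.2.1.2) p.2.2 l * e l = 0).card :
          ℝ) := by
        exact_mod_cast card_biUnion_le
    _ ≤ ∑ p ∈ P, 2 * (H : ℝ) ^ k * ((Nat.gcd p.2.1.1 p.2.1.2 : ℝ) / p.2.1.2) := sum_le_sum hterm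
    _ = 4 * (W.card : ℝ) * (2 * (H : ℝ) ^ k) *
          ∑ a ∈ Icc 1 ρ, ∑ b ∈ Icc 1 ρ, ((Nat.gcd a b : ℝ) / b) := by
        rw [hP, sum_product, sum_product]
        simp only [sum_product, sum_const, nsmul_eq_mul, mul_sum]
        have h2 : ((({1, -1} : Finset ℤ).card : ℕ) : ℝ) = 2 := by norm_num
        rw [h2]
        refine sum_congr rfl fun a _ => ?_
        refine sum_congr rfl fun b _ => ?_
        ring
    _ ≤ 4 * (W.card : ℝ) * (2 * (H : ℝ) ^ k) * (ρ * (1 + Real.log ρ) ^ 2) := by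
        have h1 := B5_gcd_sum ρ
        gcongr
    _ = 8 * (2 * ρ + 1) ^ (k - 1) * ρ * (1 + Real.log ρ) ^ 2 * (H : ℝ) ^ k := by
        rw [hWc]
        ring

open Classical in
/-- B5. Few vectors of the box are orthogonal to a nonzero vector of size at most `ρ`. (For
`v i, v j ≠ 0` there are at most `2 H^k gcd(v i, v j) / |v j|` vectors `e` with `v.e = 0`, and
`∑_(a,b ≤ ρ) gcd(a,b)/b ≤ ρ ∑_(g h ≤ ρ) 1/(g h)`.) -/
theorem bad_count (k : ℕ) (hk : 1 ≤ k) (H ρ : ℕ) (hρ : 1 ≤ ρ) (hρH : ρ ≤ H) :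
    (((Fintype.piFinset fun _ : Fin (k + 1) => Icc (1 : ℤ) H).filter
      fun e => ∃ v : Fin (k + 1) → ℤ, v ≠ 0 ∧ (∀ j, |v j| ≤ ρ) ∧ ∑ j, v j * e j = 0).card : ℝ) ≤
      8 * (k + 1) ^ 2 * (2 * ρ + 1) ^ (k - 1) * ρ * (1 + Real.log ρ) ^ 2 * (H : ℝ) ^ k := by
  have hsub : ((Fintype.piFinset fun _ : Fin (k + 1) => Icc (1 : ℤ) H).filter
      fun e => ∃ v : Fin (k + 1) → ℤ, v ≠ 0 ∧ (∀ j, |v j| ≤ ρ) ∧ ∑ j, v j * e j = 0) ⊆
      (univ.filter fun p : Fin (k + 1) × Fin (k + 1) => p.1 ≠ p.2).biUnion fun p =>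
      (Fintype.piFinset fun _ : Fin (k + 1) => Icc (1 : ℤ) H).filter
      fun e => ∃ v : Fin (k + 1) → ℤ, v p.1 ≠ 0 ∧ v p.2 ≠ 0 ∧ (∀ l, |v l| ≤ ρ) ∧
        ∑ l, v l * e l = 0 := by
    intro e he
    obtain ⟨heb, v, hv0, hv, hsum⟩ := mem_filter.mp he
    obtain ⟨i, hi⟩ : ∃ i, v i ≠ 0 := by
      by_contra hno
      push Not at hno
      exact hv0 (funext hno)
    obtain ⟨j, hji, hj⟩ : ∃ j, j ≠ i ∧ v j ≠ 0 := by
      by_contra hno
      push Not at hno
      have h1 : ∑ l, v l * e l = v i * e i := by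
        refine sum_eq_single i (fun l _ hl => ?_) fun h => absurd (mem_univ i) h
        rw [hno l hl, zero_mul]
      rw [hsum] at h1
      have h2 := (mem_Icc.mp (Fintype.mem_piFinset.mp heb i)).1
      rcases mul_eq_zero.mp h1.symm with h | h
      · exact hi h
      · omega
    exact mem_biUnion.mpr ⟨(i, j), mem_filter.mpr ⟨mem_univ _, fun h => hji h.symm⟩,
      mem_filter.mpr ⟨heb, v, hi, hj, hv, hsum⟩⟩
  have hlog : 0 ≤ Real.log ρ := Real.log_natCast_nonneg ρ
  calc (((Fintype.piFinset fun _ : Fin (k + 1) => Icc (1 : ℤ) H).filter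
      fun e => ∃ v : Fin (k + 1) → ℤ, v ≠ 0 ∧ (∀ j, |v j| ≤ ρ) ∧ ∑ j, v j * e j = 0).card : ℝ)
      ≤ (((univ.filter fun p : Fin (k + 1) × Fin (k + 1) => p.1 ≠ p.2).biUnion fun p =>
      (Fintype.piFinset fun _ : Fin (k + 1) => Icc (1 : ℤ) H).filter
      fun e => ∃ v : Fin (k + 1) → ℤ, v p.1 ≠ 0 ∧ v p.2 ≠ 0 ∧ (∀ l, |v l| ≤ ρ) ∧
        ∑ l, v l * e l = 0).card : ℝ) := by exact_mod_cast card_le_card hsub
    _ ≤ ∑ p ∈ univ.filter fun p : Fin (k + 1) × Fin (k + 1) => p.1 ≠ p.2,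
      (((Fintype.piFinset fun _ : Fin (k + 1) => Icc (1 : ℤ) H).filter
      fun e => ∃ v : Fin (k + 1) → ℤ, v p.1 ≠ 0 ∧ v p.2 ≠ 0 ∧ (∀ l, |v l| ≤ ρ) ∧
        ∑ l, v l * e l = 0).card : ℝ) := by exact_mod_cast card_biUnion_le
    _ ≤ ∑ _p ∈ univ.filter fun p : Fin (k + 1) × Fin (k + 1) => p.1 ≠ p.2,
        8 * (2 * ρ + 1) ^ (k - 1) * ρ * (1 + Real.log ρ) ^ 2 * (H : ℝ) ^ k :=
        sum_le_sum fun p hp => B5_pair k H ρ hρH p.1 p.2 (mem_filter.mp hp).2
    _ ≤ ((k : ℝ) + 1) ^ 2 *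
        (8 * (2 * ρ + 1) ^ (k - 1) * ρ * (1 + Real.log ρ) ^ 2 * (H : ℝ) ^ k) := by
        rw [sum_const, nsmul_eq_mul]
        have h1 : (((univ.filter fun p : Fin (k + 1) × Fin (k + 1) => p.1 ≠ p.2).card : ℕ) : ℝ) ≤
            ((k : ℝ) + 1) ^ 2 := by
          have h2 := card_filter_le (univ : Finset (Fin (k + 1) × Fin (k + 1)))
            (fun p => p.1 ≠ p.2)
          rw [card_univ, Fintype.card_prod, Fintype.card_fin] at h2
          have h3 : (((univ.filter fun p : Fin (k + 1) × Fin (k + 1) => p.1 ≠ p.2).card : ℕ) : ℝ) ≤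
            (((k + 1) * (k + 1) : ℕ) : ℝ) := by exact_mod_cast h2
          push_cast at h3
          linarith
        gcongr
    _ = 8 * (k + 1) ^ 2 * (2 * ρ + 1) ^ (k - 1) * ρ * (1 + Real.log ρ) ^ 2 * (H : ℝ) ^ k := by
        ring

end Pool.Agent.H7RF
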