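import Mathlib

set_option autoImplicit false

namespace Pool.Agent.H7RF

open Finset

/-- A functional that vanishes at none of finitely many nonzero vectors. -/
theorem exists_functional {k : ℕ} (D : Finset (Fin (k + 1) → ℤ)) (hD : ∀ d ∈ D, d ≠ 0) :
    ∃ T : ℤ, ∀ d ∈ D, ∑ j : Fin (k + 1), T ^ (j : ℕ) * d j ≠ 0 := by
  classical
  set P : (Fin (k + 1) → ℤ) → Polynomial ℤ := fun d =>
    ∑ j : Fin (k + 1), Polynomial.monomial (j : ℕ) (d j) with hP
  have hne : ∀ d ∈ D, P d ≠ 0 := by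
    intro d hd h0
    apply hD d hd
    funext j
    have h1 : (P d).coeff (j : ℕ) = d j := by
      rw [hP]
      simp only [Polynomial.finsetSum_coeff, Polynomial.coeff_monomial]
      rw [Finset.sum_eq_single j]
      · simp
      · intro b _ hb
        rw [if_neg]
        intro h
        exact hb (Fin.ext h)
      · simp
    rw [h0, Polynomial.coeff_zero] at h1
    exact h1.symm
  have hprod : ∏ d ∈ D, P d ≠ 0 := Finset.prod_ne_zero_iff.2 hne
  by_contra hcon
  push Not at hcon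
  apply hprod
  apply Polynomial.funext
  intro T
  rw [Polynomial.eval_zero, Polynomial.eval_prod, Finset.prod_eq_zero_iff]
  obtain ⟨d, hd, h⟩ := hcon T
  refine ⟨d, hd, ?_⟩
  rw [hP]
  simp only [Polynomial.eval_finsetSum, Polynomial.eval_monomial]
  rw [← h]
  exact Finset.sum_congr rfl fun j _ => mul_comm _ _

/-- A. If all the projections `π i` (with kernel generated by `e i`) kill `f`, then the width of
`f` in the direction of the coordinate `0` is at least the sum of the `e i 0`. -/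
theorem width {k l : ℕ} {ι : Type} (s : Finset ι) (e : ι → Fin (k + 1) → ℤ)
    (π : ι → (Fin (k + 1) → ℤ) →+ (Fin l → ℤ))
    (hker : ∀ i ∈ s, ∀ x, π i x = 0 → ∃ m : ℤ, x = m • e i)
    (hne : ∀ i ∈ s, ∀ j ∈ s, i ≠ j → π i (e j) ≠ 0)
    (hpos : ∀ i ∈ s, 0 < e i 0)
    (f : (Fin (k + 1) → ℤ) →₀ ℤ) (hf : f ≠ 0)
    (h0 : ∀ i ∈ s, Finsupp.mapDomain (π i) f = 0) :
    ∃ x ∈ f.support, ∃ y ∈ f.support, ∑ i ∈ s, e i 0 ≤ x 0 - y 0 := by
  classical
  -- two points in each fibre
  have htwo : ∀ i ∈ s, ∀ x ∈ f.support, ∃ y ∈ f.support, y ≠ x ∧ π i y = π i x := by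
    intro i hi x hx
    by_contra hcon
    push Not at hcon
    have h1 : Finsupp.mapDomain (π i) f (π i x) = f x := by
      rw [Finsupp.mapDomain, Finsupp.sum_apply, Finsupp.sum, Finset.sum_eq_single x]
      · rw [Finsupp.single_apply, if_pos rfl]
      · intro b hb hbx
        rw [Finsupp.single_apply, if_neg (hcon b hb hbx)]
      · intro h
        exact absurd hx h
    rw [h0 i hi, Finsupp.coe_zero, Pi.zero_apply] at h1
    exact (Finsupp.mem_support_iff.1 hx) h1.symm
  obtain ⟨x0, hx0⟩ := Finsupp.support_nonempty_iff.2 hf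
  have hpe : ∀ i ∈ s, π i (e i) = 0 := by
    intro i hi
    obtain ⟨y, hy, hyx, hπ⟩ := htwo i hi x0 hx0
    have h1 : π i (y - x0) = 0 := by rw [map_sub, hπ, sub_self]
    obtain ⟨m, hm⟩ := hker i hi _ h1
    have hm0 : m ≠ 0 := by
      rintro rfl
      rw [zero_smul, sub_eq_zero] at hm
      exact hyx hm
    rw [hm, map_zsmul] at h1
    rcases smul_eq_zero.1 h1 with h2 | h2
    · exact absurd h2 hm0
    · exact h2
  -- the functional
  obtain ⟨T, hT⟩ := exists_functional
    (((s ×ˢ s).filter fun p => p.1 ≠ p.2).image fun p => e p.2 0 • e p.1 - e p.1 0 • e p.2) (by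
      intro d hd
      rw [mem_image] at hd
      obtain ⟨⟨i, j⟩, hp, rfl⟩ := hd
      rw [mem_filter, mem_product] at hp
      obtain ⟨⟨hi, hj⟩, hij⟩ := hp
      intro h
      have h1 : π i (e j 0 • e i - e i 0 • e j) = 0 := by rw [h, map_zero]
      rw [map_sub, map_zsmul, map_zsmul, hpe i hi, smul_zero, zero_sub, neg_eq_zero] at h1
      rcases smul_eq_zero.1 h1 with h2 | h2
      · exact absurd h2 (hpos i hi).ne'
      · exact hne i hi j hj hij h2)
  set φ : (Fin (k + 1) → ℤ) → ℤ := fun x => ∑ j : Fin (k + 1), T ^ (j : ℕ) * x j with hφ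
  have hφs : ∀ (m : ℤ) (x : Fin (k + 1) → ℤ), φ (m • x) = m * φ x := by
    intro m x
    rw [hφ]
    simp only [Pi.smul_apply, smul_eq_mul, mul_sum]
    exact sum_congr rfl fun j _ => by ring
  have hφa : ∀ x y : Fin (k + 1) → ℤ, φ (x - y) = φ x - φ y := by
    intro x y
    rw [hφ]
    simp only [Pi.sub_apply, ← sum_sub_distrib]
    exact sum_congr rfl fun j _ => by ring
  have hslope : ∀ i ∈ s, ∀ j ∈ s, i ≠ j → φ (e i) * e j 0 ≠ φ (e j) * e i 0 := by
    intro i hi j hj hij h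
    have h1 := hT (e j 0 • e i - e i 0 • e j) (by
      rw [mem_image]
      exact ⟨(i, j), by rw [mem_filter, mem_product]; exact ⟨⟨hi, hj⟩, hij⟩, rfl⟩)
    apply h1
    have h2 : φ (e j 0 • e i - e i 0 • e j) = 0 := by
      rw [hφa, hφs, hφs]
      linarith
    exact h2
  -- the maximisers
  have hpt : ∀ i ∈ s, ∃ p ∈ f.support, ∃ q ∈ f.support,
      (∀ x ∈ f.support, e i 0 * φ x - φ (e i) * x 0 ≤ e i 0 * φ p - φ (e i) * p 0) ∧
      (∀ x ∈ f.support, e i 0 * φ x - φ (e i) * x 0 ≤ e i 0 * φ q - φ (e i) * q 0) ∧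
      q 0 + e i 0 ≤ p 0 := by
    intro i hi
    obtain ⟨p, hp, hmax⟩ := exists_max_image f.support
      (fun x => e i 0 * φ x - φ (e i) * x 0) ⟨x0, hx0⟩
    obtain ⟨q, hq, hqp, hπ⟩ := htwo i hi p hp
    have h1 : π i (q - p) = 0 := by rw [map_sub, hπ, sub_self]
    obtain ⟨m, hm⟩ := hker i hi _ h1
    have hm0 : m ≠ 0 := by
      rintro rfl
      rw [zero_smul, sub_eq_zero] at hm
      exact hqp hm
    have e1 : φ q - φ p = m * φ (e i) := by rw [← hφa, hm, hφs]
    have e2 : q 0 - p 0 = m * e i 0 := by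
      have := congrFun hm 0
      simpa using this
    have e3 : e i 0 * φ q - φ (e i) * q 0 = e i 0 * φ p - φ (e i) * p 0 := by
      linear_combination (e i 0) * e1 - φ (e i) * e2
    have hmax' : ∀ x ∈ f.support,
        e i 0 * φ x - φ (e i) * x 0 ≤ e i 0 * φ q - φ (e i) * q 0 := by
      intro x hx
      rw [e3]
      exact hmax x hx
    have hei := hpos i hi
    rcases lt_or_gt_of_ne hm0 with h2 | h2
    · refine ⟨p, hp, q, hq, hmax, hmax', ?_⟩
      nlinarith
    · refine ⟨q, hq, p, hp, hmax', hmax, ?_⟩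
      nlinarith
  choose! p hp q hq hpm hqm hpq using hpt
  have key : ∀ i ∈ s, ∀ j ∈ s, φ (e i) * e j 0 < φ (e j) * e i 0 → p j 0 ≤ q i 0 := by
    intro i hi j hj hlt
    have h1 := hqm i hi (p j) (hp j hj)
    have h2 := hpm j hj (q i) (hq i hi)
    have hei := hpos i hi
    have hej := hpos j hj
    by_contra hcon
    push Not at hcon
    have h3 : e j 0 * (e i 0 * (φ (p j) - φ (q i))) ≤
        e j 0 * (φ (e i) * (p j 0 - q i 0)) := by
      apply mul_le_mul_of_nonneg_left _ hej.le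
      linarith
    have h4 : e i 0 * (φ (e j) * (p j 0 - q i 0)) ≤
        e i 0 * (e j 0 * (φ (p j) - φ (q i))) := by
      apply mul_le_mul_of_nonneg_left _ hei.le
      linarith
    have h5 : 0 < (φ (e j) * e i 0 - φ (e i) * e j 0) * (p j 0 - q i 0) :=
      mul_pos (by linarith) (by linarith)
    nlinarith
  obtain ⟨lo, hlo, hlo'⟩ := exists_min_image f.support (fun x => x 0) ⟨x0, hx0⟩
  obtain ⟨hi, hhi, hhi'⟩ := exists_max_image f.support (fun x => x 0) ⟨x0, hx0⟩
  refine ⟨hi, hhi, lo, hlo, ?_⟩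
  have hdisj : ∀ a ∈ s, ∀ b ∈ s, a ≠ b →
      Disjoint (Finset.Ico (q a 0) (p a 0)) (Finset.Ico (q b 0) (p b 0)) := by
    intro a ha b hb hab
    rw [Finset.disjoint_left]
    intro z hz hz'
    rw [Finset.mem_Ico] at hz hz'
    rcases lt_or_gt_of_ne (hslope a ha b hb hab) with h | h
    · have := key a ha b hb h
      omega
    · have := key b hb a ha h
      omega
  have hcard := card_biUnion (s := s) (t := fun a => Finset.Ico (q a 0) (p a 0)) hdisj
  have hsub : s.biUnion (fun a => Finset.Ico (q a 0) (p a 0)) ⊆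
      Finset.Ico (lo 0) (hi 0) := by
    intro z hz
    rw [mem_biUnion] at hz
    obtain ⟨a, ha, hz⟩ := hz
    rw [Finset.mem_Ico] at hz ⊢
    have h1 := hlo' (q a) (hq a ha)
    have h2 := hhi' (p a) (hp a ha)
    omega
  have h1 := card_le_card hsub
  rw [hcard, Int.card_Ico] at h1
  have h2 : (∑ a ∈ s, e a 0) ≤ ((∑ a ∈ s, (Finset.Ico (q a 0) (p a 0)).card : ℕ) : ℤ) := by
    push_cast
    refine sum_le_sum fun a ha => ?_
    rw [Int.card_Ico]
    have := hpq a ha
    omega
  have h3 : lo 0 ≤ hi 0 := hlo' hi hhi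
  omega

end Pool.Agent.H7RF
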