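import Pool.Agent.H7RF.Good
import Pool.Agent.H7RF.Width

/-!
Crew file for `MP_b76cd5_al`: one elimination step. A nonzero Laurent polynomial in `k + 1`
variables with support in a box of side `D` has a nonzero image under a monomial substitution in
`k` variables with exponents at most `D ^ (1 / (k (k + 2)) + η)`.
-/

set_option autoImplicit false

namespace Pool.Agent.H7RF

open Finset Filter

theorem lin_apply {k l : ℕ} (v : Fin l → Fin k → ℤ) (x : Fin k → ℤ) (i : Fin l) :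
    lin v x i = ∑ j, v i j * x j := rfl

/-- D. One elimination step (from A and C). -/
theorem elim_step (k : ℕ) (hk : 2 ≤ k) (η : ℝ) (hη : 0 < η) : ∃ D0 : ℕ, ∀ D : ℕ, D0 ≤ D →
    ∀ f : (Fin (k + 1) → ℤ) →₀ ℤ, f ≠ 0 →
    (∀ x ∈ f.support, ∀ y ∈ f.support, ∀ j, |x j - y j| ≤ D) →
    ∃ v : Fin k → Fin (k + 1) → ℤ,
      (∀ i j, ((|v i j| : ℤ) : ℝ) ≤ (D : ℝ) ^ (1 / (k * (k + 2)) + η : ℝ)) ∧
      Finsupp.mapDomain (lin v) f ≠ 0 := by
  classical
  have hkr : (2 : ℝ) ≤ k := by exact_mod_cast hk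
  set δ : ℝ := min η 1 / 2 with hδ
  have hm0 : 0 < min η 1 := lt_min hη one_pos
  have hδ0 : 0 < δ := by positivity
  have hδη : δ ≤ η / 2 := by
    have := min_le_left η 1
    linarith
  have hδ1 : δ ≤ 1 / 2 := by
    have := min_le_right η 1
    linarith
  obtain ⟨H0, hH0⟩ := good k hk δ hδ0
  set a : ℝ := 1 / (k + 2) with ha
  have ha0 : 0 < a := by positivity
  have ha1 : a ≤ 1 / 4 := by
    rw [ha]
    apply one_div_le_one_div_of_le (by norm_num)
    linarith
  have hak : a * (k + 2) = 1 := by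
    rw [ha]
    field_simp
  set b : ℝ := δ / 2 with hb
  have hb0 : 0 < b := by positivity
  have T : ∀ c : ℝ, 0 < c → Tendsto (fun D : ℕ => (D : ℝ) ^ c) atTop atTop := fun c hc =>
    (tendsto_rpow_atTop hc).comp tendsto_natCast_atTop_atTop
  obtain ⟨D0, hD0⟩ := eventually_atTop.1
    (((T (a + b) (by linarith)).eventually_ge_atTop (H0 : ℝ)).and
      (((T (δ / 4) (by linarith)).eventually_ge_atTop 2).and
        (((T (b * (k + 2)) (by positivity)).eventually_gt_atTop 200).and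
          (eventually_ge_atTop 1))))
  refine ⟨D0, fun D hD f hf hbox => ?_⟩
  obtain ⟨g1, g2, g3, g4⟩ := hD0 D hD
  have hDr : (1 : ℝ) ≤ D := by exact_mod_cast g4
  have hDp : (0 : ℝ) < D := by linarith
  set H : ℕ := ⌈(D : ℝ) ^ (a + b)⌉₊ with hH
  have hHge : (D : ℝ) ^ (a + b) ≤ H := Nat.le_ceil _
  have hone : (1 : ℝ) ≤ (D : ℝ) ^ (a + b) := Real.one_le_rpow hDr (by linarith)
  have hHle : (H : ℝ) ≤ 2 * (D : ℝ) ^ (a + b) := by
    have := (Nat.ceil_lt_add_one (show 0 ≤ (D : ℝ) ^ (a + b) by positivity)).le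
    rw [← hH] at this
    linarith
  obtain ⟨s, hs1, hs2⟩ := hH0 H (by exact_mod_cast g1.trans hHge)
  have hexp : (H : ℝ) ^ (1 / k + δ : ℝ) ≤ (D : ℝ) ^ (1 / (k * (k + 2)) + η : ℝ) := by
    have hk1 : (1 : ℝ) / k ≤ 1 / 2 := one_div_le_one_div_of_le (by norm_num) hkr
    have hk0 : (0 : ℝ) < 1 / k := by positivity
    calc (H : ℝ) ^ (1 / k + δ : ℝ) ≤ (2 * (D : ℝ) ^ (a + b)) ^ (1 / k + δ : ℝ) :=
          Real.rpow_le_rpow (by positivity) hHle (by positivity)
      _ = 2 ^ (1 / k + δ : ℝ) * (D : ℝ) ^ ((a + b) * (1 / k + δ)) := by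
          rw [Real.mul_rpow (by norm_num) (by positivity), ← Real.rpow_mul hDp.le]
      _ ≤ 2 * (D : ℝ) ^ ((a + b) * (1 / k + δ)) := by
          apply mul_le_mul_of_nonneg_right _ (by positivity)
          calc (2 : ℝ) ^ (1 / k + δ : ℝ) ≤ 2 ^ (1 : ℝ) :=
                Real.rpow_le_rpow_of_exponent_le (by norm_num) (by linarith)
            _ = 2 := Real.rpow_one 2
      _ ≤ (D : ℝ) ^ (δ / 4) * (D : ℝ) ^ ((a + b) * (1 / k + δ)) :=
          mul_le_mul_of_nonneg_right g2 (by positivity)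
      _ = (D : ℝ) ^ (δ / 4 + (a + b) * (1 / k + δ)) := by rw [← Real.rpow_add hDp]
      _ ≤ _ := by
          apply Real.rpow_le_rpow_of_exponent_le hDr
          have e1 : (1 : ℝ) / (k * (k + 2)) = a * (1 / k) := by
            rw [ha]
            field_simp
          rw [e1]
          have e2 : a * δ ≤ 1 / 4 * δ := mul_le_mul_of_nonneg_right ha1 hδ0.le
          have e3 : b * (1 / k) ≤ b * (1 / 2) := mul_le_mul_of_nonneg_left hk1 hb0.le
          have e4 : b * δ ≤ b * (1 / 2) := mul_le_mul_of_nonneg_left hδ1 hb0.le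
          nlinarith
  by_contra hcon
  push Not at hcon
  have hch : ∀ e : Fin (k + 1) → ℤ, ∃ v : Fin k → Fin (k + 1) → ℤ, e ∈ s →
      (Finsupp.mapDomain (lin v) f = 0 ∧ ∀ x : Fin (k + 1) → ℤ,
        (∀ i, ∑ j, v i j * x j = 0) ↔ ∃ m : ℤ, x = m • e) := by
    intro e
    by_cases he : e ∈ s
    · obtain ⟨_, _, v, hv1, hv2⟩ := hs2 e he
      exact ⟨v, fun _ => ⟨hcon v fun i j => (hv1 i j).trans hexp, hv2⟩⟩
    · exact ⟨0, fun h => absurd h he⟩
  choose v hv using hch
  have hzero : ∀ e ∈ s, ∀ x, lin (v e) x = 0 ↔ ∃ m : ℤ, x = m • e := by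
    intro e he x
    rw [← (hv e he).2 x]
    constructor
    · intro h i
      rw [← lin_apply, h]
      rfl
    · intro h
      funext i
      exact h i
  obtain ⟨x, hx, y, hy, hxy⟩ := width s (fun e => e) (fun e => lin (v e))
    (fun e he x h => (hzero e he x).1 h)
    (fun e he e' he' hne h => by
      obtain ⟨m, hm⟩ := (hzero e he e').1 h
      obtain ⟨hp', ⟨c, hc⟩, _⟩ := hs2 e' he'
      obtain ⟨hp, _, _⟩ := hs2 e he
      have h1 : m * ∑ j, c j * e j = 1 := by
        rw [← hc, hm, Finset.mul_sum]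
        refine sum_congr rfl fun j _ => ?_
        rw [Pi.smul_apply, smul_eq_mul]
        ring
      have h2 : 1 ≤ m * e 0 := by
        have := hp' 0
        rwa [hm, Pi.smul_apply, smul_eq_mul] at this
      have h3 : 0 < m := by
        by_contra hneg
        have h4 : m ≤ 0 := not_lt.1 hneg
        have h5 := mul_nonneg_of_nonpos_of_nonpos h4 (neg_nonpos.2 (by linarith [hp 0] : 0 ≤ e 0))
        nlinarith [hp 0]
      have h6 : m = 1 := by
        rcases Int.isUnit_iff.1 (IsUnit.of_mul_eq_one _ h1) with h | h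
        · exact h
        · omega
      apply hne
      rw [hm, h6, one_smul])
    (fun e he => by have := (hs2 e he).1 0; omega)
    f hf (fun e he => (hv e he).1)
  have h1 : ((∑ e ∈ s, e 0 : ℤ) : ℝ) ≤ D := by
    have h2 := (le_abs_self _).trans (hbox x hx y hy 0)
    exact_mod_cast hxy.trans h2
  have h2 : (D : ℝ) ^ (b * (k + 2)) * D ≤ (H : ℝ) ^ (k + 2) := by
    calc (D : ℝ) ^ (b * (k + 2)) * D = ((D : ℝ) ^ (a + b)) ^ (k + 2) := by
          rw [← Real.rpow_natCast, ← Real.rpow_mul hDp.le]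
          have : (a + b) * ((k + 2 : ℕ) : ℝ) = b * (k + 2) + 1 := by
            push_cast
            linarith
          rw [this, Real.rpow_add hDp, Real.rpow_one]
      _ ≤ _ := pow_le_pow_left₀ (by positivity) hHge _
  have h3 : 200 * (D : ℝ) < (D : ℝ) ^ (b * (k + 2)) * D :=
    mul_lt_mul_of_pos_right g3 hDp
  linarith

end Pool.Agent.H7RF
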