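import Pool.Agent.RFG43.Elim

/-! # `MP_b76cd5_al`, pieces B3 and E1 (helper34) -/

set_option autoImplicit false

namespace Pool.Agent.H7RF

open Finset

/-- B3. The kernel of an integer matrix of full rank which kills the primitive vector `e`. -/
theorem kernel (k : ℕ) (e : Fin (k + 1) → ℤ) (v : Fin k → Fin (k + 1) → ℤ)
    (hv : LinearIndependent ℝ (fun i j => (v i j : ℝ))) (he : ∀ i, ∑ j, v i j * e j = 0)
    (hprim : ∃ c : Fin (k + 1) → ℤ, ∑ j, c j * e j = 1) (x : Fin (k + 1) → ℤ)
    (hx : ∀ i, ∑ j, v i j * x j = 0) : ∃ m : ℤ, x = m • e := by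
  obtain ⟨c, hc⟩ := hprim
  set M : Matrix (Fin k) (Fin (k + 1)) ℝ := Matrix.of (fun i j => (v i j : ℝ)) with hM
  have hrank : M.rank = k := by
    have := LinearIndependent.rank_matrix (M := M) hv
    simpa using this
  have hfin : Module.finrank ℝ (LinearMap.ker M.mulVecLin) = 1 := by
    have h1 := LinearMap.finrank_range_add_finrank_ker M.mulVecLin
    have h2 : Module.finrank ℝ (LinearMap.range M.mulVecLin) = k := hrank
    rw [h2] at h1
    simp only [Module.finrank_fintype_fun_eq_card, Fintype.card_fin] at h1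
    omega
  have hmem : ∀ y : Fin (k + 1) → ℤ, (∀ i, ∑ j, v i j * y j = 0) →
      (fun j => (y j : ℝ)) ∈ LinearMap.ker M.mulVecLin := by
    intro y hy
    rw [LinearMap.mem_ker]
    funext i
    have := hy i
    simp only [hM, Matrix.mulVecLin_apply, Matrix.mulVec, dotProduct, Matrix.of_apply,
      Pi.zero_apply]
    exact_mod_cast this
  have hne : (⟨_, hmem e he⟩ : LinearMap.ker M.mulVecLin) ≠ 0 := by
    intro h0
    have h1 : (fun j => (e j : ℝ)) = 0 := congrArg Subtype.val h0
    have h2 : ∀ j, e j = 0 := by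
      intro j
      have := congrFun h1 j
      simpa using this
    simp [h2] at hc
  obtain ⟨l, hl⟩ := (finrank_eq_one_iff_of_nonzero' _ hne).mp hfin ⟨_, hmem x hx⟩
  have hl' : ∀ j, l * (e j : ℝ) = x j := by
    intro j
    have := congrFun (congrArg Subtype.val hl) j
    simpa using this
  have hlz : l = ((∑ j, c j * x j : ℤ) : ℝ) := by
    have h1 : ((∑ j, c j * e j : ℤ) : ℝ) = 1 := by rw [hc]; simp
    push_cast at h1 ⊢
    calc l = l * ∑ j, (c j : ℝ) * (e j : ℝ) := by rw [h1, mul_one]
      _ = ∑ j, (c j : ℝ) * (x j : ℝ) := by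
        rw [Finset.mul_sum]
        refine Finset.sum_congr rfl fun j _ => ?_
        rw [← hl' j]
        ring
  refine ⟨∑ j, c j * x j, ?_⟩
  funext j
  have := hl' j
  rw [hlz] at this
  rw [Pi.smul_apply, smul_eq_mul]
  exact_mod_cast this.symm

/-- The linear map of a matrix. -/
def lin {k l : ℕ} (v : Fin l → Fin k → ℤ) : (Fin k → ℤ) →+ (Fin l → ℤ) where
  toFun x := fun i => ∑ j, v i j * x j
  map_zero' := by funext i; simp
  map_add' x y := by funext i; simp [mul_add, Finset.sum_add_distrib]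

theorem zpow_sum_aux {G : Type} [CommGroup G] {ι : Type} (s : Finset ι) (a : G) (b : ι → ℤ) :
    a ^ (∑ j ∈ s, b j) = ∏ j ∈ s, a ^ b j := by
  classical
  induction s using Finset.induction_on with
  | empty => simp
  | insert i s hi ih => rw [sum_insert hi, prod_insert hi, zpow_add, ih]

/-- E1. -/
theorem evg_lin {k l : ℕ} (v : Fin l → Fin k → ℤ) (f : (Fin k → ℤ) →₀ ℤ) {p : ℕ}
    (t : Fin l → (ZMod p)ˣ) : RFG43.evg (Finsupp.mapDomain (lin v) f) t =
      RFG43.evg f (fun j => ∏ i, t i ^ v i j) := by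
  unfold RFG43.evg
  rw [Finsupp.sum_mapDomain_index]
  · refine Finsupp.sum_congr fun x _ => ?_
    congr 2
    have h1 : ∀ i, t i ^ (lin v x i) = ∏ j, (t i ^ v i j) ^ x j := by
      intro i
      change t i ^ (∑ j, v i j * x j) = _
      rw [zpow_sum_aux]
      refine prod_congr rfl fun j _ => ?_
      rw [zpow_mul]
    rw [prod_congr rfl fun i _ => h1 i, prod_comm]
    refine prod_congr rfl fun j _ => ?_
    rw [← Finset.prod_zpow]
  · intro y
    simp
  · intro y a b
    push_cast
    ring

end Pool.Agent.H7RF
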