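import Mathlib

/-!
# A quarter of the vectors of a box is primitive
-/

set_option autoImplicit false

namespace Pool.Agent.H7RF

open Finset

private theorem sum_sq_le (H : ℕ) (hH : 2 ≤ H) :
    ∑ g ∈ Icc 2 H, 1 / (g : ℝ) ^ 2 ≤ 3 / 4 - 1 / (H : ℝ) := by
  induction H, hH using Nat.le_induction with
  | base => norm_num
  | succ H hH ih =>
    rw [Finset.sum_Icc_succ_top (by omega)]
    have h1 : (2 : ℝ) ≤ H := by exact_mod_cast hH
    have h2 : 1 / ((H + 1 : ℕ) : ℝ) ^ 2 ≤ 1 / (H : ℝ) - 1 / ((H + 1 : ℕ) : ℝ) := by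
      push_cast
      rw [div_sub_div _ _ (by positivity) (by positivity), div_le_div_iff₀ (by positivity)
        (by positivity)]
      nlinarith
    linarith

private theorem sum_sq_le' (H : ℕ) : ∑ g ∈ Icc 2 H, 1 / (g : ℝ) ^ 2 ≤ 3 / 4 := by
  rcases Nat.lt_or_ge H 2 with h | h
  · rw [Finset.Icc_eq_empty (by omega), Finset.sum_empty]
    norm_num
  · have h1 := sum_sq_le H h
    have h2 : (0 : ℝ) ≤ 1 / (H : ℝ) := by positivity
    linarith

private theorem card_mul (H g : ℕ) (hg : 0 < g) :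
    ((Icc (1 : ℤ) H).filter fun x => (g : ℤ) ∣ x).card ≤ H / g := by
  have h1 : ((Icc (1 : ℤ) ((H / g : ℕ) : ℤ))).card = H / g := by
    rw [Int.card_Icc, add_sub_cancel_right, Int.toNat_natCast]
  rw [← h1]
  have hg' : (0 : ℤ) < g := by exact_mod_cast hg
  refine Finset.card_le_card_of_injOn (fun x => x / (g : ℤ)) (fun x hx => ?_) ?_
  · simp only [Finset.coe_filter, Finset.mem_Icc, Set.mem_ofPred_eq] at hx
    simp only [Finset.coe_Icc, Set.mem_Icc]
    obtain ⟨⟨h2, h3⟩, h4⟩ := hx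
    refine ⟨?_, ?_⟩
    · rw [Int.le_ediv_iff_mul_le hg', one_mul]
      exact Int.le_of_dvd (by omega) h4
    · push_cast
      exact Int.ediv_le_ediv hg' h3
  · intro x hx y hy hxy
    simp only [Finset.coe_filter, Finset.mem_Icc, Set.mem_ofPred_eq] at hx hy
    have h2 : x / (g : ℤ) = y / (g : ℤ) := hxy
    rw [← Int.ediv_mul_cancel hx.2, h2, Int.ediv_mul_cancel hy.2]

private theorem exists_dvd {k : ℕ} (hk : 0 < k) (H : ℕ) (e : Fin k → ℤ)
    (he : ∀ j, 1 ≤ e j ∧ e j ≤ H) (h : ¬ ∃ c : Fin k → ℤ, ∑ j, c j * e j = 1) :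
    ∃ g : ℕ, 2 ≤ g ∧ g ≤ H ∧ ∀ j, (g : ℤ) ∣ e j := by
  obtain ⟨g, hg⟩ := (IsPrincipalIdealRing.principal (Ideal.span (Set.range e))).principal
  have h1 : ∀ j, (g.natAbs : ℤ) ∣ e j := by
    intro j
    have h2 : e j ∈ Ideal.span (Set.range e) := Ideal.subset_span ⟨j, rfl⟩
    rw [hg] at h2
    exact Int.natAbs_dvd.mpr (Ideal.mem_span_singleton.mp h2)
  have h3 : g.natAbs ≠ 1 := by
    intro h4
    apply h
    have h5 : (1 : ℤ) ∈ Ideal.span (Set.range e) := by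
      rw [hg]
      exact Ideal.mem_span_singleton.mpr (Int.isUnit_iff_natAbs_eq.mpr h4).dvd
    obtain ⟨c, hc⟩ := (Ideal.mem_span_range_iff_exists_fun).mp h5
    exact ⟨c, hc⟩
  have h6 := h1 ⟨0, hk⟩
  have h7 := he ⟨0, hk⟩
  have h8 : (g.natAbs : ℤ) ≤ e ⟨0, hk⟩ := Int.le_of_dvd (by omega) h6
  have h9 : g.natAbs ≠ 0 := by
    intro h10
    rw [h10] at h6
    have h11 : e ⟨0, hk⟩ = 0 := Int.zero_dvd.mp h6
    omega
  exact ⟨g.natAbs, by omega, by omega, h1⟩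

open Classical in
/-- B4. A quarter of the vectors of the box is primitive (`1 - ∑ 1/g^2 ≥ 1/4`). -/
theorem primitive_count (k : ℕ) (hk : 2 ≤ k) (H : ℕ) :
    (H : ℝ) ^ k / 4 ≤ (((Fintype.piFinset fun _ : Fin k => Icc (1 : ℤ) H).filter
      fun e => ∃ c : Fin k → ℤ, ∑ j, c j * e j = 1).card : ℝ) := by
  set B := Fintype.piFinset fun _ : Fin k => Icc (1 : ℤ) H with hB
  have h1 : B.card = H ^ k := by
    rw [hB, Fintype.card_piFinset_const, Int.card_Icc]
    congr 1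
    omega
  have h2 := Finset.card_filter_add_card_filter_not (s := B)
    (fun e => ∃ c : Fin k → ℤ, ∑ j, c j * e j = 1)
  have h3 : B.filter (fun e => ¬ ∃ c : Fin k → ℤ, ∑ j, c j * e j = 1) ⊆
      (Icc 2 H).biUnion fun g =>
        Fintype.piFinset fun _ : Fin k => (Icc (1 : ℤ) H).filter fun x => (g : ℤ) ∣ x := by
    intro e he
    rw [Finset.mem_filter, hB, Fintype.mem_piFinset] at he
    obtain ⟨g, hg2, hgH, hg⟩ := exists_dvd (by omega) H e
      (fun j => Finset.mem_Icc.mp (he.1 j)) he.2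
    rw [Finset.mem_biUnion]
    refine ⟨g, Finset.mem_Icc.mpr ⟨hg2, hgH⟩, ?_⟩
    rw [Fintype.mem_piFinset]
    exact fun j => Finset.mem_filter.mpr ⟨he.1 j, hg j⟩
  have h4 : ((B.filter (fun e => ¬ ∃ c : Fin k → ℤ, ∑ j, c j * e j = 1)).card : ℝ) ≤
      3 / 4 * (H : ℝ) ^ k := by
    have h5 := (Finset.card_le_card h3).trans Finset.card_biUnion_le
    have h6 : (∑ g ∈ Icc 2 H, ((Fintype.piFinset fun _ : Fin k =>
        (Icc (1 : ℤ) H).filter fun x => (g : ℤ) ∣ x).card : ℝ)) ≤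
        ∑ g ∈ Icc 2 H, (H : ℝ) ^ k * (1 / (g : ℝ) ^ 2) := by
      refine Finset.sum_le_sum fun g hg => ?_
      have hg2 := (Finset.mem_Icc.mp hg).1
      have h7 : (1 : ℝ) ≤ g := by exact_mod_cast (by omega : 1 ≤ g)
      rw [Fintype.card_piFinset_const]
      have h8 : ((((Icc (1 : ℤ) H).filter fun x => (g : ℤ) ∣ x).card : ℕ) : ℝ) ≤ (H : ℝ) / g := by
        refine le_trans ?_ (Nat.cast_div_le (α := ℝ))
        exact_mod_cast card_mul H g (by omega)
      push_cast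
      calc ((((Icc (1 : ℤ) H).filter fun x => (g : ℤ) ∣ x).card : ℕ) : ℝ) ^ k
          ≤ ((H : ℝ) / g) ^ k := pow_le_pow_left₀ (by positivity) h8 k
        _ = (H : ℝ) ^ k * (1 / (g : ℝ) ^ k) := by rw [div_pow]; ring
        _ ≤ (H : ℝ) ^ k * (1 / (g : ℝ) ^ 2) := by
          refine mul_le_mul_of_nonneg_left ?_ (by positivity)
          exact one_div_le_one_div_of_le (by positivity) (pow_le_pow_right₀ h7 hk)
    rw [← Finset.mul_sum] at h6
    have h9 := mul_le_mul_of_nonneg_left (sum_sq_le' H) (by positivity : (0 : ℝ) ≤ (H : ℝ) ^ k)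
    have h10 : ((B.filter (fun e => ¬ ∃ c : Fin k → ℤ, ∑ j, c j * e j = 1)).card : ℝ) ≤
        (∑ g ∈ Icc 2 H, ((Fintype.piFinset fun _ : Fin k =>
        (Icc (1 : ℤ) H).filter fun x => (g : ℤ) ∣ x).card : ℝ)) := by
      exact_mod_cast h5
    linarith
  have h11 : ((B.filter (fun e => ∃ c : Fin k → ℤ, ∑ j, c j * e j = 1)).card : ℝ) +
      ((B.filter (fun e => ¬ ∃ c : Fin k → ℤ, ∑ j, c j * e j = 1)).card : ℝ) = (H : ℝ) ^ k := by
    rw [h1] at h2
    exact_mod_cast h2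
  linarith

end Pool.Agent.H7RF
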