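import Pool.Agent.H7RF.Pack
import Pool.Agent.H7RF.Kernel
import Pool.Agent.H7RF.Bad
import Pool.Agent.H7RF.Prim

/-!
Crew file for `MP_b76cd5_al`: many primitive vectors `e` of a box of side `H` in `ℤ ^ (k + 1)` are
kernels of integer matrices with entries at most `H ^ (1 / k + δ)`.
-/

set_option autoImplicit false

namespace Pool.Agent.H7RF

open Finset Filter

/-- The counting part of C. -/
theorem good_card (k H ρ : ℕ) (hk : 1 ≤ k) (hρ : 1 ≤ ρ) (hρH : ρ ≤ H)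
    (h1 : 8 * (k + 1) ^ 2 * (2 * ρ + 1) ^ (k - 1) * ρ * (1 + Real.log ρ) ^ 2 * (H : ℝ) ^ k ≤
      (H : ℝ) ^ (k + 1) / 16) :
    ∃ s : Finset (Fin (k + 1) → ℤ), (H : ℝ) ^ (k + 2) / 200 ≤ ((∑ e ∈ s, e 0 : ℤ) : ℝ) ∧
      ∀ e ∈ s, (∀ j, 1 ≤ e j ∧ e j ≤ H) ∧ (∃ c : Fin (k + 1) → ℤ, ∑ j, c j * e j = 1) ∧
        ∀ v : Fin (k + 1) → ℤ, v ≠ 0 → (∀ j, |v j| ≤ ρ) → ∑ j, v j * e j ≠ 0 := by
  classical
  set P := (Fintype.piFinset fun _ : Fin (k + 1) => Icc (1 : ℤ) H).filter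
    fun e => ∃ c : Fin (k + 1) → ℤ, ∑ j, c j * e j = 1 with hP
  set Bd := (Fintype.piFinset fun _ : Fin (k + 1) => Icc (1 : ℤ) H).filter
    fun e => ∃ v : Fin (k + 1) → ℤ, v ≠ 0 ∧ (∀ j, |v j| ≤ ρ) ∧ ∑ j, v j * e j = 0 with hBd
  set Sm := Fintype.piFinset
    fun j : Fin (k + 1) => if j = 0 then Icc (1 : ℤ) (H / 16 : ℕ) else Icc (1 : ℤ) H with hSm
  have c1 : (H : ℝ) ^ (k + 1) / 4 ≤ P.card := by
    convert primitive_count (k + 1) (by omega) H
  have c2 : (Bd.card : ℝ) ≤ (H : ℝ) ^ (k + 1) / 16 := by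
    refine le_trans ?_ h1
    convert bad_count k hk H ρ hρ hρH
  have c3 : (Sm.card : ℝ) ≤ (H : ℝ) ^ (k + 1) / 16 := by
    rw [hSm, Fintype.card_piFinset, Fin.prod_univ_succ]
    have e1 : ∀ j : Fin k, (if (Fin.succ j : Fin (k + 1)) = 0 then Icc (1 : ℤ) (H / 16 : ℕ)
        else Icc (1 : ℤ) H).card = H := by
      intro j
      rw [if_neg (Fin.succ_ne_zero j), Int.card_Icc]
      omega
    rw [if_pos rfl, prod_congr rfl fun j _ => e1 j, prod_const, card_univ, Fintype.card_fin,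
      Int.card_Icc]
    have e2 : ((H / 16 : ℕ) + 1 - 1 : ℤ).toNat = H / 16 := by omega
    rw [e2]
    push_cast
    have e3 : ((H / 16 : ℕ) : ℝ) ≤ (H : ℝ) / 16 := by
      have := @Nat.cast_div_le ℝ _ _ _ H 16
      exact_mod_cast this
    calc ((H / 16 : ℕ) : ℝ) * (H : ℝ) ^ k ≤ (H : ℝ) / 16 * (H : ℝ) ^ k :=
          mul_le_mul_of_nonneg_right e3 (by positivity)
      _ = _ := by ring
  refine ⟨(P \ Bd) \ Sm, ?_, fun e he => ?_⟩
  · have hcard : (H : ℝ) ^ (k + 1) / 8 ≤ (((P \ Bd) \ Sm).card : ℝ) := by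
      have e1 : P.card ≤ ((P \ Bd) \ Sm).card + Sm.card + Bd.card := by
        have h2 : P.card ≤ (P \ Bd).card + Bd.card := by
          have := card_le_card_sdiff_add_card (s := P) (t := Bd)
          omega
        have h3 : (P \ Bd).card ≤ ((P \ Bd) \ Sm).card + Sm.card := by
          have := card_le_card_sdiff_add_card (s := P \ Bd) (t := Sm)
          omega
        omega
      have e2 : (P.card : ℝ) ≤ ((P \ Bd) \ Sm).card + Sm.card + Bd.card := by exact_mod_cast e1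
      have e3 : (0 : ℝ) ≤ (H : ℝ) ^ (k + 1) := by positivity
      linarith
    have hterm : ∀ e ∈ (P \ Bd) \ Sm, (H : ℝ) / 16 ≤ ((e 0 : ℤ) : ℝ) := by
      intro e he
      rw [Finset.mem_sdiff, Finset.mem_sdiff, hP, mem_filter, Fintype.mem_piFinset] at he
      obtain ⟨⟨⟨hbox, _⟩, _⟩, hsm⟩ := he
      have h2 : ¬ (e 0 ≤ ((H / 16 : ℕ) : ℤ)) := by
        intro h3
        apply hsm
        rw [hSm, Fintype.mem_piFinset]
        intro j
        by_cases hj : j = 0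
        · subst hj
          rw [if_pos rfl, mem_Icc]
          exact ⟨(mem_Icc.1 (hbox 0)).1, h3⟩
        · rw [if_neg hj]
          exact hbox j
      have h3 : (H : ℤ) ≤ 16 * e 0 := by omega
      have h4 : (H : ℝ) ≤ 16 * ((e 0 : ℤ) : ℝ) := by exact_mod_cast h3
      linarith
    push_cast
    calc (H : ℝ) ^ (k + 2) / 200 ≤ (H : ℝ) ^ (k + 2) / 128 := by
          apply div_le_div_of_nonneg_left (by positivity) (by norm_num) (by norm_num)
      _ = (H : ℝ) ^ (k + 1) / 8 * ((H : ℝ) / 16) := by ring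
      _ ≤ (((P \ Bd) \ Sm).card : ℝ) * ((H : ℝ) / 16) :=
          mul_le_mul_of_nonneg_right hcard (by positivity)
      _ = ∑ _e ∈ (P \ Bd) \ Sm, (H : ℝ) / 16 := by rw [sum_const, nsmul_eq_mul]
      _ ≤ _ := sum_le_sum hterm
  · rw [Finset.mem_sdiff, Finset.mem_sdiff, hP, mem_filter, Fintype.mem_piFinset] at he
    obtain ⟨⟨⟨hbox, hprim⟩, hbd⟩, _⟩ := he
    refine ⟨fun j => mem_Icc.1 (hbox j), hprim, fun v hv0 hv hsum => hbd ?_⟩
    rw [hBd, mem_filter, Fintype.mem_piFinset]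
    exact ⟨hbox, v, hv0, hv, hsum⟩

/-- C. The good vectors (from B2, B3, B4, B5). -/
theorem good (k : ℕ) (hk : 2 ≤ k) (δ : ℝ) (hδ : 0 < δ) : ∃ H0 : ℕ, ∀ H : ℕ, H0 ≤ H →
    ∃ s : Finset (Fin (k + 1) → ℤ), (H : ℝ) ^ (k + 2) / 200 ≤ ((∑ e ∈ s, e 0 : ℤ) : ℝ) ∧
      ∀ e ∈ s, (∀ j, 1 ≤ e j) ∧ (∃ c : Fin (k + 1) → ℤ, ∑ j, c j * e j = 1) ∧
        ∃ v : Fin k → Fin (k + 1) → ℤ, (∀ i j, ((|v i j| : ℤ) : ℝ) ≤ (H : ℝ) ^ (1 / k + δ)) ∧
          ∀ x : Fin (k + 1) → ℤ, (∀ i, ∑ j, v i j * x j = 0) ↔ ∃ m : ℤ, x = m • e := by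
  classical
  have hkr : (2 : ℝ) ≤ k := by exact_mod_cast hk
  have hk0 : (0 : ℝ) < k := by linarith
  -- exponents
  set a : ℝ := 1 / k with ha
  have ha0 : 0 < a := by positivity
  have hak : a * k = 1 := by rw [ha]; field_simp
  have ha1 : a ≤ 1 / 2 := by
    rw [ha]
    exact one_div_le_one_div_of_le (by norm_num) hkr
  -- `ρ ≤ H ^ (a - b)`, `M = H ^ (a + δ)`
  set b : ℝ := min δ a / (2 * k) with hb
  have hm0 : 0 < min δ a := lt_min hδ ha0
  have hb0 : 0 < b := by positivity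
  have hbk' : b * k = min δ a / 2 := by rw [hb]; field_simp
  have hbk : b * k ≤ δ / 2 := by
    rw [hbk']
    have := min_le_left δ a
    linarith
  have hba : b < a := by
    have h1 : b * k ≤ a / 2 := by
      rw [hbk']
      have := min_le_right δ a
      linarith
    nlinarith
  have hbk0 : 0 < b * k := by positivity
  have T : ∀ c : ℝ, 0 < c → Tendsto (fun D : ℕ => (D : ℝ) ^ c) atTop atTop := fun c hc =>
    (tendsto_rpow_atTop hc).comp tendsto_natCast_atTop_atTop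
  have hlog : ∀ᶠ H : ℕ in atTop, 1 + Real.log (H : ℝ) ≤ (H : ℝ) ^ (b * k / 4) := by
    have h1 := (isLittleO_log_rpow_atTop (show 0 < b * k / 4 by positivity)).bound
      (show (0 : ℝ) < 1 / 2 by norm_num)
    have h2 := tendsto_natCast_atTop_atTop (R := ℝ) |>.eventually h1
    filter_upwards [h2, (T (b * k / 4) (by positivity)).eventually_ge_atTop 2] with H g1 g2
    rw [Real.norm_eq_abs, Real.norm_eq_abs, abs_of_nonneg (by positivity :
      (0 : ℝ) ≤ (H : ℝ) ^ (b * k / 4))] at g1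
    have := le_abs_self (Real.log (H : ℝ))
    linarith
  obtain ⟨H0, hH0⟩ := eventually_atTop.1 (hlog.and
    (((T (b * k / 2) (by positivity)).eventually_ge_atTop
        (128 * (k + 1) ^ 2 * 3 ^ k : ℝ)).and
      (((T (δ / 2) (by positivity)).eventually_gt_atTop ((k + 2) * 3 ^ (k - 1) * 2 ^ k : ℝ)).and
        (((T (a - b) (by linarith)).eventually_ge_atTop 2).and (eventually_ge_atTop 1)))))
  refine ⟨H0, fun H hH => ?_⟩
  obtain ⟨g1, g2, g3, g4, g5⟩ := hH0 H hH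
  have hHr : (1 : ℝ) ≤ H := by exact_mod_cast g5
  have hHp : (0 : ℝ) < H := by linarith
  -- `ρ`
  set ρ : ℕ := ⌊(H : ℝ) ^ (a - b)⌋₊ with hρ
  have hρle : (ρ : ℝ) ≤ (H : ℝ) ^ (a - b) := Nat.floor_le (by positivity)
  have hρge : (H : ℝ) ^ (a - b) / 2 ≤ ρ := by
    have := (Nat.lt_floor_add_one ((H : ℝ) ^ (a - b))).le
    rw [← hρ] at this
    linarith
  have hρ1 : 1 ≤ ρ := by
    have : (1 : ℝ) ≤ ρ := by linarith
    exact_mod_cast this
  have hρr : (1 : ℝ) ≤ ρ := by exact_mod_cast hρ1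
  have hρHr : (ρ : ℝ) ≤ H := by
    refine hρle.trans ?_
    calc (H : ℝ) ^ (a - b) ≤ (H : ℝ) ^ (1 : ℝ) :=
          Real.rpow_le_rpow_of_exponent_le hHr (by linarith)
      _ = H := Real.rpow_one _
  have hρH : ρ ≤ H := by exact_mod_cast hρHr
  -- `M`
  set M : ℕ := ⌊(H : ℝ) ^ (a + δ)⌋₊ with hM
  have hMle : (M : ℝ) ≤ (H : ℝ) ^ (a + δ) := Nat.floor_le (by positivity)
  have hab : (H : ℝ) ^ (a - b) ≤ (H : ℝ) ^ (a + δ) :=
    Real.rpow_le_rpow_of_exponent_le hHr (by linarith)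
  have hMge : (H : ℝ) ^ (a + δ) / 2 ≤ M := by
    have := (Nat.lt_floor_add_one ((H : ℝ) ^ (a + δ))).le
    rw [← hM] at this
    linarith
  have hρM : ρ ≤ M := Nat.floor_le_floor hab
  have hM1 : 1 ≤ M := hρ1.trans hρM
  have hMr : (1 : ℝ) ≤ M := by exact_mod_cast hM1
  have hρMr : (ρ : ℝ) ≤ M := by exact_mod_cast hρM
  obtain ⟨s, hs1, hs2⟩ := good_card k H ρ (by omega) hρ1 hρH (by
    have e1 : (2 * (ρ : ℝ) + 1) ^ (k - 1) * ρ ≤ 3 ^ k * (H : ℝ) ^ (1 - b * k) := by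
      calc (2 * (ρ : ℝ) + 1) ^ (k - 1) * ρ ≤ (3 * ρ) ^ (k - 1) * (3 * ρ) := by
            apply mul_le_mul _ (by linarith) (by positivity) (by positivity)
            exact pow_le_pow_left₀ (by positivity) (by linarith) _
        _ = (3 * (ρ : ℝ)) ^ k := by
            rw [← pow_succ, Nat.sub_add_cancel (by omega)]
        _ = 3 ^ k * (ρ : ℝ) ^ k := by rw [mul_pow]
        _ ≤ 3 ^ k * ((H : ℝ) ^ (a - b)) ^ k := by
            apply mul_le_mul_of_nonneg_left _ (by positivity)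
            exact pow_le_pow_left₀ (by positivity) hρle _
        _ = _ := by
            rw [← Real.rpow_natCast ((H : ℝ) ^ (a - b)), ← Real.rpow_mul hHp.le]
            congr 2
            rw [sub_mul, hak]
    have e2 : (1 + Real.log ρ) ^ 2 ≤ (H : ℝ) ^ (b * k / 2) := by
      have h1 : Real.log ρ ≤ Real.log H := Real.log_le_log (by linarith) hρHr
      have h0 : 0 ≤ Real.log ρ := Real.log_nonneg hρr
      calc (1 + Real.log ρ) ^ 2 ≤ ((H : ℝ) ^ (b * k / 4)) ^ 2 :=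
            pow_le_pow_left₀ (by linarith) (by linarith) _
        _ = _ := by
            rw [← Real.rpow_natCast ((H : ℝ) ^ (b * k / 4)), ← Real.rpow_mul hHp.le]
            congr 1
            push_cast
            ring
    have e3 : (0 : ℝ) ≤ (1 + Real.log ρ) ^ 2 := by positivity
    calc 8 * (k + 1) ^ 2 * (2 * ρ + 1) ^ (k - 1) * ρ * (1 + Real.log ρ) ^ 2 * (H : ℝ) ^ k
        = 8 * (k + 1 : ℝ) ^ 2 * ((2 * (ρ : ℝ) + 1) ^ (k - 1) * ρ) * (1 + Real.log ρ) ^ 2 *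
          (H : ℝ) ^ k := by ring
      _ ≤ 8 * (k + 1 : ℝ) ^ 2 * (3 ^ k * (H : ℝ) ^ (1 - b * k)) * (H : ℝ) ^ (b * k / 2) *
          (H : ℝ) ^ k := by gcongr
      _ = (128 * (k + 1 : ℝ) ^ 2 * 3 ^ k) * ((H : ℝ) ^ (1 - b * k) * (H : ℝ) ^ (b * k / 2) *
          (H : ℝ) ^ k) / 16 := by ring
      _ ≤ (H : ℝ) ^ (b * k / 2) * ((H : ℝ) ^ (1 - b * k) * (H : ℝ) ^ (b * k / 2) *
          (H : ℝ) ^ k) / 16 := by gcongr
      _ = (H : ℝ) ^ (k + 1) / 16 := by
          congr 1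
          rw [← Real.rpow_natCast (H : ℝ) k, ← Real.rpow_natCast (H : ℝ) (k + 1),
            ← Real.rpow_add hHp, ← Real.rpow_add hHp, ← Real.rpow_add hHp]
          congr 1
          push_cast
          ring)
  refine ⟨s, hs1, fun e he => ?_⟩
  obtain ⟨hbox, hprim, hbad⟩ := hs2 e he
  refine ⟨fun j => (hbox j).1, hprim, ?_⟩
  obtain ⟨v, hv1, hv2, hv3⟩ := independent k (by omega) H M ρ (by linarith) hM1 e hbox
    (fun v hv0 hv => hbad v hv0 fun j => by exact_mod_cast hv j) (by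
    have e1 : ((k + 1) * H * M + 1 : ℝ) ≤ (k + 2) * (H * M) := by
      have : (1 : ℝ) ≤ H * M := by nlinarith
      nlinarith
    have e2 : (2 * M / ρ + 1 : ℝ) ≤ 3 * M / ρ := by
      have : (1 : ℝ) ≤ M / ρ := by rwa [le_div_iff₀ (by linarith), one_mul]
      have h2 : (2 * M / ρ + 1 : ℝ) = 2 * (M / ρ) + 1 := by ring
      have h3 : (3 * M / ρ : ℝ) = 3 * (M / ρ) := by ring
      rw [h2, h3]
      linarith
    have e3 : ((k + 2) * 3 ^ (k - 1) * 2 ^ k : ℝ) * H < (2 ^ k) * (M * (ρ : ℝ) ^ (k - 1)) := by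
      have h1 : (H : ℝ) ^ (a + δ) * ((H : ℝ) ^ (a - b)) ^ (k - 1) ≤
          2 ^ k * (M * (ρ : ℝ) ^ (k - 1)) := by
        calc (H : ℝ) ^ (a + δ) * ((H : ℝ) ^ (a - b)) ^ (k - 1)
            ≤ (2 * M) * (2 * ρ) ^ (k - 1) := by
              apply mul_le_mul (by linarith) _ (by positivity) (by positivity)
              exact pow_le_pow_left₀ (by positivity) (by linarith) _
          _ = 2 ^ (k - 1 + 1) * (M * (ρ : ℝ) ^ (k - 1)) := by
              rw [mul_pow, pow_succ]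
              ring
          _ = _ := by rw [Nat.sub_add_cancel (by omega)]
      have h2 : (H : ℝ) ^ (δ / 2) * H ≤ (H : ℝ) ^ (a + δ) * ((H : ℝ) ^ (a - b)) ^ (k - 1) := by
        calc (H : ℝ) ^ (δ / 2) * H = (H : ℝ) ^ (δ / 2) * (H : ℝ) ^ (1 : ℝ) := by
              rw [Real.rpow_one]
          _ = (H : ℝ) ^ (δ / 2 + 1) := by rw [← Real.rpow_add hHp]
          _ ≤ (H : ℝ) ^ (a + δ + (a - b) * ((k - 1 : ℕ) : ℝ)) := by
              apply Real.rpow_le_rpow_of_exponent_le hHr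
              rw [Nat.cast_sub (by omega : 1 ≤ k), Nat.cast_one]
              nlinarith
          _ = _ := by
              rw [Real.rpow_add hHp, Real.rpow_mul hHp.le, Real.rpow_natCast]
      have h3 := mul_lt_mul_of_pos_right g3 hHp
      linarith
    have e4 : ((k + 2) * 3 ^ (k - 1) : ℝ) * H < M * (ρ : ℝ) ^ (k - 1) := by
      have h1 : (0 : ℝ) < 2 ^ k := by positivity
      have h2 : (2 : ℝ) ^ k * (((k + 2) * 3 ^ (k - 1) : ℝ) * H) <
          2 ^ k * (M * (ρ : ℝ) ^ (k - 1)) := by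
        have : (2 : ℝ) ^ k * (((k + 2) * 3 ^ (k - 1) : ℝ) * H) =
          ((k + 2) * 3 ^ (k - 1) * 2 ^ k : ℝ) * H := by ring
        rw [this]
        exact e3
      exact lt_of_mul_lt_mul_left h2 h1.le
    have hρp : (0 : ℝ) < (ρ : ℝ) ^ (k - 1) := by positivity
    calc ((k + 1) * H * M + 1 : ℝ) * (2 * M / ρ + 1) ^ (k - 1)
        ≤ (k + 2) * (H * M) * (3 * M / ρ) ^ (k - 1) := by gcongr
      _ = ((k + 2) * 3 ^ (k - 1) * H) * (M * (M : ℝ) ^ (k - 1)) / (ρ : ℝ) ^ (k - 1) := by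
          rw [div_pow, mul_pow]
          ring
      _ < (M * (ρ : ℝ) ^ (k - 1)) * (M * (M : ℝ) ^ (k - 1)) / (ρ : ℝ) ^ (k - 1) := by
          apply div_lt_div_of_pos_right _ hρp
          exact mul_lt_mul_of_pos_right e4 (by positivity)
      _ = (M : ℝ) * (M * (M : ℝ) ^ (k - 1)) := by
          field_simp
      _ = (M : ℝ) ^ (k + 1) := by
          rw [← pow_succ', Nat.sub_add_cancel (by omega), ← pow_succ']
      _ ≤ _ := pow_le_pow_left₀ (by positivity) (by linarith) _)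
  refine ⟨v, fun i j => ?_, fun x => ⟨fun h => kernel k e v hv1 hv3 hprim x h, ?_⟩⟩
  · refine le_trans ?_ hMle
    exact_mod_cast hv2 i j
  · rintro ⟨m, rfl⟩ i
    have h1 : ∑ j, v i j * (m • e) j = m * ∑ j, v i j * e j := by
      rw [mul_sum]
      refine sum_congr rfl fun j _ => ?_
      rw [Pi.smul_apply, smul_eq_mul]
      ring
    rw [h1, hv3 i, mul_zero]

end Pool.Agent.H7RF
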