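import Mathlib

/-! Packing in a subspace and independent small vectors orthogonal to an integer vector. -/

set_option autoImplicit false

namespace Pool.Agent.H7RF

open Finset

open MeasureTheory Metric Function in
/-- separated points in a ball of a finite dimensional normed space -/
theorem packE {E : Type} [NormedAddCommGroup E] [NormedSpace ℝ E] [FiniteDimensional ℝ E]
    (s : Finset E) (R ρ : ℝ) (hρ : 0 < ρ) (hR : 0 ≤ R) (hs : ∀ c ∈ s, ‖c‖ ≤ R)
    (h : ∀ c ∈ s, ∀ d ∈ s, c ≠ d → ρ ≤ ‖c - d‖) :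
    (s.card : ℝ) ≤ (2 * R / ρ + 1) ^ Module.finrank ℝ E := by
  borelize E
  let μ : Measure E := Measure.addHaar
  set δ : ℝ := ρ / 2 with hδ
  set σ : ℝ := R + ρ / 2 with hσ
  have δpos : 0 < δ := by positivity
  have σpos : 0 < σ := by positivity
  set A := ⋃ c ∈ s, ball (c : E) δ with hA
  have D : Set.Pairwise (s : Set E) (Disjoint on fun c => ball (c : E) δ) := by
    rintro c hc d hd hcd
    apply ball_disjoint_ball
    rw [dist_eq_norm]
    have := h c hc d hd hcd
    linarith
  have A_subset : A ⊆ ball (0 : E) σ := by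
    refine Set.iUnion₂_subset fun x hx => ?_
    apply ball_subset_ball'
    rw [dist_zero_right]
    have := hs x hx
    linarith
  have I :
    (s.card : ENNReal) * ENNReal.ofReal (δ ^ Module.finrank ℝ E) * μ (ball 0 1) ≤
      ENNReal.ofReal (σ ^ Module.finrank ℝ E) * μ (ball 0 1) :=
    calc
      (s.card : ENNReal) * ENNReal.ofReal (δ ^ Module.finrank ℝ E) * μ (ball 0 1) = μ A := by
        rw [hA, measure_biUnion_finset D fun c _ => measurableSet_ball]
        simp only [μ.addHaar_ball_of_pos _ δpos]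
        simp only [Finset.sum_const, nsmul_eq_mul, mul_assoc]
      _ ≤ μ (ball (0 : E) σ) := measure_mono A_subset
      _ = ENNReal.ofReal (σ ^ Module.finrank ℝ E) * μ (ball 0 1) := by
        simp only [μ.addHaar_ball_of_pos _ σpos]
  have J : (s.card : ENNReal) * ENNReal.ofReal (δ ^ Module.finrank ℝ E) ≤
      ENNReal.ofReal (σ ^ Module.finrank ℝ E) :=
    (ENNReal.mul_le_mul_iff_left (measure_ball_pos _ _ zero_lt_one).ne' measure_ball_lt_top.ne).1 I
  have K := ENNReal.toReal_le_of_le_ofReal (pow_nonneg σpos.le _) J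
  rw [ENNReal.toReal_mul, ENNReal.toReal_natCast, ENNReal.toReal_ofReal (pow_nonneg δpos.le _)] at K
  have e1 : 2 * R / ρ + 1 = σ / δ := by
    rw [hσ, hδ]
    field_simp
  rw [e1, div_pow, le_div_iff₀ (pow_pos δpos _)]
  exact K

/-- B1. Packing in a subspace (adapt the proof of `Besicovitch.card_le_of_separated` to `W`). -/
theorem packing {k : ℕ} (W : Submodule ℝ (Fin k → ℝ)) (S : Finset (Fin k → ℝ)) (R ρ : ℝ)
    (hρ : 0 < ρ) (hR : 0 ≤ R) (hS : ∀ x ∈ S, x ∈ W ∧ ‖x‖ ≤ R)
    (hsep : ∀ x ∈ S, ∀ y ∈ S, x ≠ y → ρ ≤ ‖x - y‖) :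
    (S.card : ℝ) ≤ (2 * R / ρ + 1) ^ Module.finrank ℝ W := by
  classical
  have hc : (S.attach.image fun x => (⟨x.1, (hS x.1 x.2).1⟩ : W)).card = S.card := by
    rw [Finset.card_image_of_injective, Finset.card_attach]
    intro x y hxy
    exact Subtype.ext (congrArg (fun z : W => (z : Fin k → ℝ)) hxy)
  rw [← hc]
  refine packE _ R ρ hρ hR ?_ ?_
  · intro c hc'
    obtain ⟨x, -, rfl⟩ := Finset.mem_image.mp hc'
    exact (hS x.1 x.2).2
  · intro c hc' d hd hcd
    obtain ⟨x, -, rfl⟩ := Finset.mem_image.mp hc'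
    obtain ⟨y, -, rfl⟩ := Finset.mem_image.mp hd
    refine hsep x.1 x.2 y.1 y.2 ?_
    intro h
    exact hcd (Subtype.ext h)

/-- B2. Many independent small vectors orthogonal to `e` (pigeonhole: `x ↦ x.e` on the box
`[0,M]^(k+1)`, then `packing` for the span `W` of all small orthogonal vectors). -/
theorem independent (k : ℕ) (hk : 1 ≤ k) (H M : ℕ) (ρ : ℝ) (hρ : 0 < ρ) (hM : 1 ≤ M)
    (e : Fin (k + 1) → ℤ) (he : ∀ j, 1 ≤ e j ∧ e j ≤ H)
    (hbad : ∀ v : Fin (k + 1) → ℤ, v ≠ 0 → (∀ j, ((|v j| : ℤ) : ℝ) ≤ ρ) → ∑ j, v j * e j ≠ 0)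
    (hcount : ((k + 1) * H * M + 1 : ℝ) * (2 * M / ρ + 1) ^ (k - 1) < ((M : ℝ) + 1) ^ (k + 1)) :
    ∃ v : Fin k → Fin (k + 1) → ℤ, LinearIndependent ℝ (fun i j => (v i j : ℝ)) ∧
      (∀ i j, |v i j| ≤ M) ∧ ∀ i, ∑ j, v i j * e j = 0 := by
  classical
  -- the small orthogonal vectors
  let ι : Type := {v : Fin (k + 1) → ℤ // (∀ j, |v j| ≤ M) ∧ ∑ j, v j * e j = 0}
  let vv : ι → Fin (k + 1) → ℝ := fun v j => (v.1 j : ℝ)
  obtain ⟨κ, a, ha, hspan, hli⟩ := exists_linearIndependent' (K := ℝ) vv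
  have : Finite κ := hli.finite
  have : Fintype κ := Fintype.ofFinite κ
  have hfr : Module.finrank ℝ (Submodule.span ℝ (Set.range vv)) = Fintype.card κ := by
    rw [← hspan]
    exact finrank_span_eq_card hli
  by_cases hkc : k ≤ Fintype.card κ
  · obtain ⟨g⟩ : Nonempty (Fin k ↪ κ) := by
      rw [Function.Embedding.nonempty_iff_card_le, Fintype.card_fin]
      exact hkc
    exact ⟨fun i => (a (g i)).1, hli.comp g g.injective, fun i => (a (g i)).2.1,
      fun i => (a (g i)).2.2⟩
  · exfalso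
    push Not at hkc
    -- the pigeonhole principle
    set box : Finset (Fin (k + 1) → ℤ) := Fintype.piFinset fun _ => Icc (0 : ℤ) M with hbox
    have hcard : (box.card : ℝ) = ((M : ℝ) + 1) ^ (k + 1) := by
      rw [hbox, Fintype.card_piFinset]
      simp
    have hmaps : ∀ x ∈ box, ∑ j, x j * e j ∈ Icc (0 : ℤ) ((k + 1) * H * M) := by
      intro x hx
      rw [hbox, Fintype.mem_piFinset] at hx
      rw [Finset.mem_Icc]
      constructor
      · exact Finset.sum_nonneg fun j _ => mul_nonneg (Finset.mem_Icc.mp (hx j)).1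
          (by have := (he j).1; omega)
      · calc ∑ j, x j * e j ≤ ∑ _j : Fin (k + 1), (M : ℤ) * H := by
              refine Finset.sum_le_sum fun j _ => ?_
              have h1 := Finset.mem_Icc.mp (hx j)
              have h2 := he j
              exact mul_le_mul h1.2 h2.2 (by omega) (by omega)
          _ = (k + 1) * H * M := by
              simp only [Finset.sum_const, Finset.card_univ, Fintype.card_fin, nsmul_eq_mul]
              push_cast
              ring
    have hct : ((Icc (0 : ℤ) ((k + 1) * H * M)).card : ℝ) = (k + 1) * H * M + 1 := by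
      rw [Int.card_Icc]
      have : ((((k : ℤ) + 1) * H * M + 1 - 0).toNat : ℤ) = ((k : ℤ) + 1) * H * M + 1 := by
        rw [sub_zero]
        exact Int.toNat_of_nonneg (by positivity)
      have h2 := congrArg (fun z : ℤ => (z : ℝ)) this
      simp only [Int.cast_natCast] at h2
      rw [h2]
      push_cast
      ring
    obtain ⟨y, -, hy⟩ := Finset.exists_lt_card_fiber_of_nsmul_lt_card_of_maps_to
      (s := box) (t := Icc (0 : ℤ) ((k + 1) * H * M)) (f := fun x => ∑ j, x j * e j)
      (b := (2 * M / ρ + 1 : ℝ) ^ (k - 1)) hmaps (by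
        rw [nsmul_eq_mul, hct, hcard]
        exact hcount)
    set T := box.filter fun x => ∑ j, x j * e j = y with hT
    have hTpos : 0 < T.card := by
      have h0 : (0 : ℝ) ≤ (2 * M / ρ + 1 : ℝ) ^ (k - 1) := by positivity
      exact_mod_cast h0.trans_lt hy
    obtain ⟨x₀, hx₀⟩ := Finset.card_pos.mp hTpos
    have hmemT : ∀ x ∈ T, (∀ j, 0 ≤ x j ∧ x j ≤ M) ∧ ∑ j, x j * e j = y := by
      intro x hx
      rw [hT, Finset.mem_filter, hbox, Fintype.mem_piFinset] at hx
      exact ⟨fun j => Finset.mem_Icc.mp (hx.1 j), hx.2⟩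
    have hdiff : ∀ x ∈ T, ∀ x' ∈ T, (∀ j, |x j - x' j| ≤ M) ∧ ∑ j, (x j - x' j) * e j = 0 := by
      intro x hx x' hx'
      obtain ⟨h1, h2⟩ := hmemT x hx
      obtain ⟨h3, h4⟩ := hmemT x' hx'
      refine ⟨fun j => ?_, ?_⟩
      · have := h1 j
        have := h3 j
        rw [abs_le]
        constructor <;> linarith
      · simp only [sub_mul, Finset.sum_sub_distrib, h2, h4, sub_self]
    set S : Finset (Fin (k + 1) → ℝ) := T.image fun x j => ((x j - x₀ j : ℤ) : ℝ) with hS
    have hScard : S.card = T.card := by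
      rw [hS, Finset.card_image_of_injective]
      intro x x' hxx
      funext j
      have := congrFun hxx j
      simp only [Int.cast_inj] at this
      omega
    have hpack := packing (Submodule.span ℝ (Set.range vv)) S M ρ hρ (by positivity) (by
      intro z hz
      obtain ⟨x, hx, rfl⟩ := Finset.mem_image.mp hz
      obtain ⟨h1, h2⟩ := hdiff x hx x₀ hx₀
      refine ⟨Submodule.subset_span ⟨⟨fun j => x j - x₀ j, h1, h2⟩, rfl⟩, ?_⟩
      rw [pi_norm_le_iff_of_nonneg (by positivity)]
      intro j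
      rw [Real.norm_eq_abs, ← Int.cast_abs]
      exact_mod_cast h1 j) (by
      intro z hz z' hz' hne
      obtain ⟨x, hx, rfl⟩ := Finset.mem_image.mp hz
      obtain ⟨x', hx', rfl⟩ := Finset.mem_image.mp hz'
      obtain ⟨h1, h2⟩ := hdiff x hx x' hx'
      have hxx : (fun j => x j - x' j) ≠ 0 := by
        intro h0
        apply hne
        funext j
        have := congrFun h0 j
        simp only [Pi.zero_apply] at this
        simp only [Int.cast_inj]
        omega
      by_contra hlt
      push Not at hlt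
      refine hbad _ hxx (fun j => ?_) h2
      have h3 := norm_le_pi_norm ((fun j => ((x j - x₀ j : ℤ) : ℝ)) -
        fun j => ((x' j - x₀ j : ℤ) : ℝ)) j
      have h4 := h3.trans hlt.le
      rw [Pi.sub_apply, ← Int.cast_sub, Real.norm_eq_abs, ← Int.cast_abs] at h4
      have h5 : x j - x₀ j - (x' j - x₀ j) = x j - x' j := by ring
      rw [h5] at h4
      exact h4)
    rw [hScard, hfr] at hpack
    have hle : (2 * M / ρ + 1 : ℝ) ^ Fintype.card κ ≤ (2 * M / ρ + 1 : ℝ) ^ (k - 1) := by
      refine pow_le_pow_right₀ ?_ (by omega)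
      have : (0 : ℝ) ≤ 2 * M / ρ := by positivity
      linarith
    exact absurd hy (not_lt.mpr (hpack.trans hle))

end Pool.Agent.H7RF
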